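import Mathlib

/-!
# Finite linear spaces with a resonant labelling

`L i j` is the line through `i` and `j`.  A labelling `τ` with values in `ZMod p` is resonant if
`|X| τ i = ∑ j ∈ X, τ j` for every line `X` and every `i ∈ X`.
-/

set_option autoImplicit false

open Finset

namespace Pool.Agent.H284_beta

variable {ι : Type*} [Fintype ι] [DecidableEq ι]

/-- The axioms of a linear space: `L i j` is the line through the points `i ≠ j`. -/
structure IsLinSp (L : ι → ι → Finset ι) : Prop where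
  left_mem : ∀ i j, i ≠ j → i ∈ L i j
  right_mem : ∀ i j, i ≠ j → j ∈ L i j
  eq_of_mem : ∀ i j k l, i ≠ j → k ≠ l → k ∈ L i j → l ∈ L i j → L k l = L i j

/-- The set of all lines. -/
def lines (L : ι → ι → Finset ι) : Finset (Finset ι) :=
  ((univ : Finset (ι × ι)).filter (fun q => q.1 ≠ q.2)).image (fun q => L q.1 q.2)

lemma mem_lines {L : ι → ι → Finset ι} {X : Finset ι} :
    X ∈ lines L ↔ ∃ i j, i ≠ j ∧ L i j = X := by
  simp [lines]

lemma line_mem_lines {L : ι → ι → Finset ι} {i j : ι} (h : i ≠ j) : L i j ∈ lines L :=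
  mem_lines.mpr ⟨i, j, h, rfl⟩

lemma IsLinSp.eq_line {L : ι → ι → Finset ι} (hL : IsLinSp L) {X : Finset ι} (hX : X ∈ lines L)
    {i j : ι} (hij : i ≠ j) (hi : i ∈ X) (hj : j ∈ X) : L i j = X := by
  obtain ⟨k, l, hkl, rfl⟩ := mem_lines.mp hX
  exact hL.eq_of_mem k l i j hkl hij hi hj

/-- At most one line of a family contains two given distinct points. -/
lemma IsLinSp.card_le_one {L : ι → ι → Finset ι} (hL : IsLinSp L) {P : Finset (Finset ι)}
    (hP : P ⊆ lines L) {i j : ι} (hij : i ≠ j) :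
    (P.filter (fun X => i ∈ X ∧ j ∈ X)).card ≤ 1 := by
  rw [Finset.card_le_one]
  intro X hX Y hY
  simp only [mem_filter] at hX hY
  rw [← hL.eq_line (hP hX.1) hij hX.2.1 hX.2.2, ← hL.eq_line (hP hY.1) hij hY.2.1 hY.2.2]

/-- Double counting of a nonnegative function on pairs vanishing on the diagonal. -/
lemma IsLinSp.sum_pairs_le {L : ι → ι → Finset ι} (hL : IsLinSp L) {P : Finset (Finset ι)}
    (hP : P ⊆ lines L) (F : ι → ι → ℝ) (hF : ∀ i j, 0 ≤ F i j) (hF0 : ∀ i, F i i = 0) :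
    ∑ X ∈ P, ∑ i ∈ X, ∑ j ∈ X, F i j ≤ ∑ i, ∑ j, F i j := by
  have h1 : ∀ X ∈ P, ∑ i ∈ X, ∑ j ∈ X, F i j =
      ∑ i, ∑ j, (if i ∈ X ∧ j ∈ X then F i j else 0) := by
    intro X _
    rw [← sum_subset (subset_univ X)]
    · refine sum_congr rfl (fun i hi => ?_)
      rw [← sum_subset (subset_univ X)]
      · exact sum_congr rfl (fun j hj => by simp [hi, hj])
      · intro j _ hj
        simp [hj]
    · intro i _ hi
      simp [hi]
  rw [sum_congr rfl h1, sum_comm]
  refine sum_le_sum (fun i _ => ?_)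
  rw [sum_comm]
  refine sum_le_sum (fun j _ => ?_)
  rw [← sum_filter, sum_const, nsmul_eq_mul]
  by_cases hij : i = j
  · subst hij
    rw [hF0]
    simp
  · have h2 : ((P.filter (fun X => i ∈ X ∧ j ∈ X)).card : ℝ) ≤ 1 := by
      exact_mod_cast hL.card_le_one hP hij
    nlinarith [hF i j]

/-- The family of lines meeting both `U` and its complement. -/
def cross (L : ι → ι → Finset ι) (U : Finset ι) : Finset (Finset ι) :=
  (lines L).filter (fun X => (X ∩ U).Nonempty ∧ (X \ U).Nonempty)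

lemma cross_subset (L : ι → ι → Finset ι) (U : Finset ι) : cross L U ⊆ lines L :=
  filter_subset _ _

/-- The number of pairs separated by `U` is the sum of the local numbers. -/
lemma IsLinSp.sum_cross {L : ι → ι → Finset ι} (hL : IsLinSp L) (U : Finset ι) :
    ∑ X ∈ cross L U, ((X ∩ U).card : ℝ) * ((X \ U).card : ℝ) =
      (U.card : ℝ) * ((Uᶜ).card : ℝ) := by
  have h1 : ∀ X ∈ cross L U, ((X ∩ U).card : ℝ) * ((X \ U).card : ℝ) =
      ∑ i ∈ U, ∑ j ∈ Uᶜ, (if i ∈ X ∧ j ∈ X then (1 : ℝ) else 0) := by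
    intro X _
    have h2 : ∀ i ∈ U, ∑ j ∈ Uᶜ, (if i ∈ X ∧ j ∈ X then (1 : ℝ) else 0) =
        if i ∈ X then ((X \ U).card : ℝ) else 0 := by
      intro i _
      by_cases hi : i ∈ X
      · simp only [hi, true_and, if_true]
        rw [← sum_filter, sum_const, nsmul_eq_mul, mul_one]
        congr 2
        ext j
        simp only [mem_filter, mem_compl, mem_sdiff]
        tauto
      · simp [hi]
    have h3 : U.filter (fun i => i ∈ X) = X ∩ U := by
      ext i
      simp only [mem_filter, mem_inter]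
      tauto
    rw [sum_congr rfl h2, ← sum_filter, sum_const, nsmul_eq_mul, h3]
  rw [sum_congr rfl h1, sum_comm]
  have h3 : ∀ i ∈ U, ∑ X ∈ cross L U, ∑ j ∈ Uᶜ, (if i ∈ X ∧ j ∈ X then (1 : ℝ) else 0) =
      ((Uᶜ).card : ℝ) := by
    intro i hi
    rw [sum_comm]
    have h4 : ∀ j ∈ Uᶜ, ∑ X ∈ cross L U, (if i ∈ X ∧ j ∈ X then (1 : ℝ) else 0) = 1 := by
      intro j hj
      have hij : i ≠ j := by
        rintro rfl
        exact (mem_compl.mp hj) hi
      have h5 : (cross L U).filter (fun X => i ∈ X ∧ j ∈ X) = {L i j} := by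
        ext X
        simp only [mem_filter, mem_singleton, cross]
        constructor
        · rintro ⟨⟨hX, _⟩, hiX, hjX⟩
          exact (hL.eq_line hX hij hiX hjX).symm
        · rintro rfl
          have h6 := hL.left_mem i j hij
          have h7 := hL.right_mem i j hij
          refine ⟨⟨line_mem_lines hij, ⟨i, mem_inter.mpr ⟨h6, hi⟩⟩,
            ⟨j, mem_sdiff.mpr ⟨h7, mem_compl.mp hj⟩⟩⟩, h6, h7⟩
      rw [← sum_filter, h5]
      simp
    rw [sum_congr rfl h4]
    simp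
  rw [sum_congr rfl h3]
  simp

/-- The abstract form of the weighted inequality. -/
lemma IsLinSp.weighted_ineq {L : ι → ι → Finset ι} (hL : IsLinSp L) {P : Finset (Finset ι)}
    (hP : P ⊆ lines L) (w : ι → ℝ) (ℓ : ℝ) (hsum : ∑ i, w i = ℓ)
    (t : ι → ι → ℝ) (ht0 : ∀ i j, 0 ≤ t i j) (htd : ∀ i, t i i = w i ^ 2)
    (hts : ∀ i, ∑ j, t i j = w i)
    (hX : ∀ X ∈ P, (∑ i ∈ X, w i) ^ 2 ≤ 2 * ∑ i ∈ X, ∑ j ∈ X, t i j) :
    ∑ X ∈ P, ((∑ i ∈ X, w i) ^ 2 / 2 - ∑ i ∈ X, w i ^ 2) ≤ ℓ - ∑ i, w i ^ 2 := by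
  set F : ι → ι → ℝ := fun i j => if i = j then 0 else t i j with hF
  have h1 := hL.sum_pairs_le hP F (fun i j => by simp only [hF]; split_ifs; exacts [le_rfl, ht0 i j])
    (fun i => by simp [hF])
  have h2 : ∀ X : Finset ι, ∑ i ∈ X, ∑ j ∈ X, F i j =
      ∑ i ∈ X, ∑ j ∈ X, t i j - ∑ i ∈ X, w i ^ 2 := by
    intro X
    rw [← sum_sub_distrib]
    refine sum_congr rfl (fun i hi => ?_)
    have h3 : ∀ j ∈ X, F i j = t i j - (if i = j then w i ^ 2 else 0) := by
      intro j _
      simp only [hF]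
      split_ifs with h
      · subst h; rw [htd]; ring
      · ring
    rw [sum_congr rfl h3, sum_sub_distrib]
    congr 1
    rw [sum_ite_eq, if_pos hi]
  have h4 := h2 univ
  rw [h4, sum_congr rfl (fun i _ => hts i), hsum] at h1
  refine le_trans (sum_le_sum (fun X hXP => ?_)) h1
  rw [h2 X]
  have := hX X hXP
  linarith

end Pool.Agent.H284_beta
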