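import Mathlib
import Pool.Agent.H284_beta.LinSp

/-!
# Resonant labellings: divisibility and the bound for closed subsets
-/

set_option autoImplicit false

open Finset

namespace Pool.Agent.H284_beta

variable {ι : Type*} [Fintype ι] [DecidableEq ι]

/-- `|X| τ i = ∑ k ∈ X, τ k` for every line `X` and every `i ∈ X`. -/
def Resonant (L : ι → ι → Finset ι) {p : ℕ} (τ : ι → ZMod p) : Prop :=
  ∀ i j, i ≠ j → ((L i j).card : ZMod p) * τ i = ∑ k ∈ L i j, τ k

lemma IsLinSp.symm_line {L : ι → ι → Finset ι} (hL : IsLinSp L) {i j : ι} (hij : i ≠ j) :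
    L j i = L i j :=
  hL.eq_of_mem i j j i hij hij.symm (hL.right_mem i j hij) (hL.left_mem i j hij)

lemma IsLinSp.two_le_card {L : ι → ι → Finset ι} (hL : IsLinSp L) {i j : ι} (hij : i ≠ j) :
    2 ≤ (L i j).card := by
  have h : ({i, j} : Finset ι) ⊆ L i j := by
    intro k hk
    simp only [mem_insert, mem_singleton] at hk
    rcases hk with rfl | rfl
    · exact hL.left_mem _ _ hij
    · exact hL.right_mem _ _ hij
  calc 2 = ({i, j} : Finset ι).card := (card_pair hij).symm
    _ ≤ _ := card_le_card h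

lemma Resonant.card_eq_zero {L : ι → ι → Finset ι} (hL : IsLinSp L) {p : ℕ} [Fact p.Prime]
    {τ : ι → ZMod p} (hτ : Resonant L τ) {i j : ι} (h : τ i ≠ τ j) :
    ((L i j).card : ZMod p) = 0 := by
  have hij : i ≠ j := fun hij => h (by rw [hij])
  have h1 := hτ i j hij
  have h2 := hτ j i hij.symm
  rw [hL.symm_line hij] at h2
  have h3 : ((L i j).card : ZMod p) * (τ i - τ j) = 0 := by
    rw [mul_sub, h1, h2, sub_self]
  rcases mul_eq_zero.mp h3 with h4 | h4
  · exact h4
  · exact absurd (sub_eq_zero.mp h4) h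

lemma Resonant.le_card {L : ι → ι → Finset ι} (hL : IsLinSp L) {p : ℕ} [Fact p.Prime]
    {τ : ι → ZMod p} (hτ : Resonant L τ) {i j : ι} (h : τ i ≠ τ j) :
    p ≤ (L i j).card := by
  have hij : i ≠ j := fun hij => h (by rw [hij])
  have h1 := hτ.card_eq_zero hL h
  rw [ZMod.natCast_eq_zero_iff] at h1
  have h2 := hL.two_le_card hij
  exact Nat.le_of_dvd (by omega) h1

lemma Resonant.sum_sub {L : ι → ι → Finset ι} (hL : IsLinSp L) {p : ℕ} [Fact p.Prime]
    {τ : ι → ZMod p} (hτ : Resonant L τ) {i j : ι} (h : τ i ≠ τ j) (c : ZMod p) :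
    ∑ k ∈ L i j, (τ k - c) = 0 := by
  have hij : i ≠ j := fun hij => h (by rw [hij])
  have h1 := hτ.card_eq_zero hL h
  have h2 := hτ i j hij
  rw [h1, zero_mul] at h2
  rw [sum_sub_distrib, ← h2, sum_const, nsmul_eq_mul, h1]
  simp

/-- The bound for one point outside a closed set. -/
lemma bound_one {L : ι → ι → Finset ι} (hL : IsLinSp L) {p : ℕ} [Fact p.Prime]
    {τ : ι → ZMod p} (hτ : Resonant L τ) (Y : Finset ι)
    (hY : ∀ i ∈ Y, ∀ j ∈ Y, i ≠ j → L i j ⊆ Y) {h : ι} (hh : h ∉ Y) :
    (p - 2) * (Y.filter (fun l => τ l ≠ τ h)).card + 1 ≤ (Yᶜ).card := by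
  classical
  set D := Y.filter (fun l => τ l ≠ τ h) with hD
  set G : ι → Finset ι := fun l => (L h l) \ {h, l} with hG
  have hne : ∀ l ∈ D, h ≠ l := by
    rintro l hl rfl
    exact hh (mem_filter.mp hl).1
  have hcard : ∀ l ∈ D, p - 2 ≤ (G l).card := by
    intro l hl
    have h1 : τ h ≠ τ l := (mem_filter.mp hl).2.symm
    have h2 := hτ.le_card hL h1
    have h3 : ({h, l} : Finset ι) ⊆ L h l := by
      intro k hk
      simp only [mem_insert, mem_singleton] at hk
      rcases hk with rfl | rfl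
      · exact hL.left_mem _ _ (hne l hl)
      · exact hL.right_mem _ _ (hne _ hl)
    simp only [hG]
    rw [card_sdiff_of_subset h3, card_pair (hne l hl)]
    omega
  have hsub : D.biUnion G ⊆ Yᶜ.erase h := by
    intro k hk
    obtain ⟨l, hl, hkl⟩ := mem_biUnion.mp hk
    simp only [hG, mem_sdiff, mem_insert, mem_singleton, not_or] at hkl
    refine mem_erase.mpr ⟨hkl.2.1, mem_compl.mpr (fun hkY => ?_)⟩
    have h1 : L k l = L h l := hL.eq_of_mem h l k l (hne l hl) hkl.2.2 hkl.1
      (hL.right_mem h l (hne l hl))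
    have h2 := hY k hkY l (mem_filter.mp hl).1 hkl.2.2
    rw [h1] at h2
    exact hh (h2 (hL.left_mem h l (hne l hl)))
  have hdisj : (D : Set ι).PairwiseDisjoint G := by
    intro l hl l' hl' hll'
    simp only [Function.onFun]
    rw [Finset.disjoint_left]
    intro k hk hk'
    simp only [hG, mem_sdiff, mem_insert, mem_singleton, not_or] at hk hk'
    have hlD : l ∈ D := hl
    have hlD' : l' ∈ D := hl'
    have h1 : L h k = L h l := hL.eq_of_mem h l h k (hne l hlD) (Ne.symm hk.2.1)
      (hL.left_mem h l (hne l hlD)) hk.1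
    have h2 : L h k = L h l' := hL.eq_of_mem h l' h k (hne l' hlD') (Ne.symm hk.2.1)
      (hL.left_mem h l' (hne l' hlD')) hk'.1
    have h3 : l' ∈ L h l := by
      rw [← h1, h2]
      exact hL.right_mem h l' (hne l' hlD')
    have h4 : L l l' = L h l := hL.eq_of_mem h l l l' (hne l hlD) hll'
      (hL.right_mem h l (hne l hlD)) h3
    have h5 := hY l (mem_filter.mp hlD).1 l' (mem_filter.mp hlD').1 hll'
    rw [h4] at h5
    exact hh (h5 (hL.left_mem h l (hne l hlD)))
  have h6 : (D.biUnion G).card = ∑ l ∈ D, (G l).card := card_biUnion hdisj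
  have h7 : D.card * (p - 2) ≤ ∑ l ∈ D, (G l).card := by
    rw [← smul_eq_mul]
    exact card_nsmul_le_sum D _ _ hcard
  have h8 := card_le_card hsub
  rw [card_erase_of_mem (mem_compl.mpr hh)] at h8
  have h9 : 1 ≤ (Yᶜ).card := card_pos.mpr ⟨h, mem_compl.mpr hh⟩
  have h10 : (p - 2) * D.card = D.card * (p - 2) := mul_comm _ _
  omega

/-- A proper closed subset contains few points. -/
lemma bound_closed {L : ι → ι → Finset ι} (hL : IsLinSp L) {p : ℕ} [Fact p.Prime]
    {τ : ι → ZMod p} (hτ : Resonant L τ) (hnc : ∃ i j, τ i ≠ τ j) (Y : Finset ι)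
    (hY : ∀ i ∈ Y, ∀ j ∈ Y, i ≠ j → L i j ⊆ Y) (hYne : Y ≠ univ) :
    (p - 2) * Y.card + 2 ≤ 2 * (Yᶜ).card := by
  classical
  obtain ⟨h, hh⟩ : ∃ h, h ∉ Y := by
    by_contra hcon
    push Not at hcon
    exact hYne (eq_univ_iff_forall.mpr hcon)
  by_cases hc : ∃ h', h' ∉ Y ∧ τ h' ≠ τ h
  · obtain ⟨h', hh', hτh⟩ := hc
    have h1 := bound_one hL hτ Y hY hh
    have h2 := bound_one hL hτ Y hY hh'
    have h3 : Y ⊆ Y.filter (fun l => τ l ≠ τ h) ∪ Y.filter (fun l => τ l ≠ τ h') := by
      intro l hl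
      simp only [mem_union, mem_filter]
      by_cases h4 : τ l = τ h
      · right
        exact ⟨hl, fun h5 => hτh (by rw [← h5, h4])⟩
      · left
        exact ⟨hl, h4⟩
    have h4 := (card_le_card h3).trans (card_union_le _ _)
    have h5 := Nat.mul_le_mul_left (p - 2) h4
    rw [mul_add] at h5
    omega
  · push Not at hc
    exfalso
    -- the labelling is constant outside `Y`
    have h1 : ∀ l, τ l = τ h := by
      intro l
      by_cases hl : l ∈ Y
      · have hne : h ≠ l := by
          rintro rfl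
          exact hh hl
        have h2 := hτ h l hne
        have h3 : ∀ k ∈ L h l, k ≠ l → τ k = τ h := by
          intro k hk hkl
          apply hc
          intro hkY
          have h4 : L k l = L h l := hL.eq_of_mem h l k l hne hkl hk (hL.right_mem h l hne)
          have h5 := hY k hkY l hl hkl
          rw [h4] at h5
          exact hh (h5 (hL.left_mem h l hne))
        have h6 := hL.right_mem h l hne
        rw [← add_sum_erase _ _ h6, sum_congr rfl (fun k hk => h3 k (mem_erase.mp hk).2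
          (mem_erase.mp hk).1), sum_const, card_erase_of_mem h6, nsmul_eq_mul] at h2
        have h7 : 1 ≤ (L h l).card := card_pos.mpr ⟨l, h6⟩
        rw [Nat.cast_sub h7] at h2
        push_cast at h2
        linear_combination -h2
      · exact hc l hl
    obtain ⟨i, j, hij⟩ := hnc
    exact hij (by rw [h1 i, h1 j])

end Pool.Agent.H284_beta
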