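import Mathlib

/-!
# The local numerical inequalities
-/

set_option autoImplicit false

namespace Pool.Agent.H284_beta

/-- Positivity of a binary quadratic form of nonpositive discriminant. -/
lemma quad_nonneg (A B C x y : ℝ) (hA : 0 < A) (hd : B ^ 2 ≤ 4 * A * C) :
    0 ≤ A * x ^ 2 - B * x * y + C * y ^ 2 := by
  have h : 0 ≤ 4 * A * (A * x ^ 2 - B * x * y + C * y ^ 2) := by
    have h1 : 4 * A * (A * x ^ 2 - B * x * y + C * y ^ 2) =
        (2 * A * x - B * y) ^ 2 + (4 * A * C - B ^ 2) * y ^ 2 := by ring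
    rw [h1]
    have h2 : 0 ≤ (4 * A * C - B ^ 2) * y ^ 2 := mul_nonneg (by linarith) (sq_nonneg _)
    positivity
  by_contra hcon
  push Not at hcon
  nlinarith

/-- The balanced case. -/
lemma numA (a b : ℕ) (ha : 1 ≤ a) (hb : 1 ≤ b) (hab : 7 ≤ a + b) (u v : ℝ) (hu : 0 < u)
    (hv : 0 < v) (h1 : 4 * v ≤ 9 * u) (h2 : 4 * u ≤ 9 * v) :
    0 ≤ 3 * a * (a - 2) * v ^ 2 + 3 * b * (b - 2) * u ^ 2 - 2 * a * b * u * v := by
  rcases Nat.lt_or_ge b 3 with hb3 | hb3
  · interval_cases b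
    · have ha6 : (6 : ℝ) ≤ a := by exact_mod_cast (by omega : 6 ≤ a)
      push_cast
      have h3 : u ^ 2 ≤ (9 / 4) * v * u := by nlinarith
      have h4 : u * v ≤ (9 / 4) * v ^ 2 := by nlinarith
      have h5 : 0 ≤ 3 * (a : ℝ) * (a - 2) - 243 / 16 - (9 / 2) * a := by nlinarith
      nlinarith [mul_nonneg h5 (sq_nonneg v), mul_nonneg (by linarith : (0:ℝ) ≤ a - 6)
        (by nlinarith : (0:ℝ) ≤ (9 / 4) * v ^ 2 - u * v)]
    · have ha5 : (5 : ℝ) ≤ a := by exact_mod_cast (by omega : 5 ≤ a)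
      push_cast
      have h3 : 0 ≤ 3 * ((a : ℝ) - 2) * v - 4 * u := by nlinarith
      have h4 : 0 ≤ (a : ℝ) * v * (3 * ((a : ℝ) - 2) * v - 4 * u) :=
        mul_nonneg (by positivity) h3
      nlinarith
  · rcases Nat.lt_or_ge a 3 with ha3 | ha3
    · interval_cases a
      · have hb6 : (6 : ℝ) ≤ b := by exact_mod_cast (by omega : 6 ≤ b)
        push_cast
        have h3 : v ^ 2 ≤ (9 / 4) * u * v := by nlinarith
        have h4 : v * u ≤ (9 / 4) * u ^ 2 := by nlinarith
        have h5 : 0 ≤ 3 * (b : ℝ) * (b - 2) - 243 / 16 - (9 / 2) * b := by nlinarith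
        nlinarith [mul_nonneg h5 (sq_nonneg u), mul_nonneg (by linarith : (0:ℝ) ≤ b - 6)
          (by nlinarith : (0:ℝ) ≤ (9 / 4) * u ^ 2 - v * u)]
      · have hb5 : (5 : ℝ) ≤ b := by exact_mod_cast (by omega : 5 ≤ b)
        push_cast
        have h3 : 0 ≤ 3 * ((b : ℝ) - 2) * u - 4 * v := by nlinarith
        have h4 : 0 ≤ (b : ℝ) * u * (3 * ((b : ℝ) - 2) * u - 4 * v) :=
          mul_nonneg (by positivity) h3
        nlinarith
    · have ha' : (3 : ℝ) ≤ a := by exact_mod_cast ha3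
      have hb' : (3 : ℝ) ≤ b := by exact_mod_cast hb3
      have hab' : (7 : ℝ) ≤ a + b := by exact_mod_cast hab
      have h3 : (a : ℝ) * b ≤ 9 * ((a - 2) * (b - 2)) := by nlinarith
      have h4 := quad_nonneg (3 * a * (a - 2)) (2 * a * b) (3 * b * (b - 2)) v u
        (by nlinarith) (by
          have h5 : (0 : ℝ) ≤ a * b := by positivity
          have h6 : (2 * (a : ℝ) * b) ^ 2 = 4 * (a * b) * (a * b) := by ring
          have h7 : 4 * (3 * (a : ℝ) * (a - 2)) * (3 * b * (b - 2)) =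
              4 * (a * b) * (9 * ((a - 2) * (b - 2))) := by ring
          rw [h6, h7]
          exact mul_le_mul_of_nonneg_left h3 (by positivity))
      nlinarith

/-- The dominated case, first range. -/
lemma numB1 (a b : ℕ) (ha : 1 ≤ a) (hb : 2 ≤ b) (hab : 7 ≤ a + b) (n N : ℝ) (hn : 0 < n)
    (hN : 0 < N) (h1 : 9 * N ≤ 4 * n) (h2 : 5 * n ≤ 14 * N) :
    0 ≤ 49 * a * (a - 2) * N ^ 2 + 25 * b * (b - 2) * n ^ 2 - 26 * a * b * n * N := by
  rcases Nat.lt_or_ge b 3 with hb3 | hb3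
  · have : b = 2 := by omega
    subst this
    have ha5 : (5 : ℝ) ≤ a := by exact_mod_cast (by omega : 5 ≤ a)
    push_cast
    have h3 : 0 ≤ 49 * ((a : ℝ) - 2) * N - 52 * n := by nlinarith
    have h4 : 0 ≤ (a : ℝ) * N * (49 * ((a : ℝ) - 2) * N - 52 * n) :=
      mul_nonneg (by positivity) h3
    nlinarith
  · rcases Nat.lt_or_ge a 3 with ha3 | ha3
    · interval_cases a
      · have hb6 : (6 : ℝ) ≤ b := by exact_mod_cast (by omega : 6 ≤ b)
        push_cast
        have h3 : N ^ 2 ≤ (4 / 9) * n * N := by nlinarith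
        have h4 : n * N ≤ (4 / 9) * n ^ 2 := by nlinarith
        have h5 : 0 ≤ 25 * (b : ℝ) * (b - 2) - 10 - 12 * b := by nlinarith
        nlinarith [mul_nonneg h5 (sq_nonneg n), mul_nonneg (by linarith : (0:ℝ) ≤ b - 6)
          (by nlinarith : (0:ℝ) ≤ (4 / 9) * n ^ 2 - n * N)]
      · have hb5 : (5 : ℝ) ≤ b := by exact_mod_cast (by omega : 5 ≤ b)
        push_cast
        have h3 : 0 ≤ 25 * ((b : ℝ) - 2) * n - 52 * N := by nlinarith
        have h4 : 0 ≤ (b : ℝ) * n * (25 * ((b : ℝ) - 2) * n - 52 * N) :=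
          mul_nonneg (by positivity) h3
        nlinarith
    · have ha' : (3 : ℝ) ≤ a := by exact_mod_cast ha3
      have hb' : (3 : ℝ) ≤ b := by exact_mod_cast hb3
      have hab' : (7 : ℝ) ≤ a + b := by exact_mod_cast hab
      have h3 : 169 * ((a : ℝ) * b) ≤ 1225 * ((a - 2) * (b - 2)) := by
        nlinarith [mul_nonneg (by linarith : (0:ℝ) ≤ a - 3) (by linarith : (0:ℝ) ≤ b - 3)]
      have h4 := quad_nonneg (49 * a * (a - 2)) (26 * a * b) (25 * b * (b - 2)) N n
        (by nlinarith) (by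
          have h6 : (26 * (a : ℝ) * b) ^ 2 = 4 * (a * b) * (169 * (a * b)) := by ring
          have h7 : 4 * (49 * (a : ℝ) * (a - 2)) * (25 * b * (b - 2)) =
              4 * (a * b) * (1225 * ((a - 2) * (b - 2))) := by ring
          rw [h6, h7]
          exact mul_le_mul_of_nonneg_left h3 (by positivity))
      nlinarith

/-- The dominated case, second range. -/
lemma numB2 (a b : ℕ) (ha : 1 ≤ a) (hb : 2 ≤ b) (hab : 7 ≤ a + b) (n N : ℝ) (hn : 0 < n)
    (hN : 0 < N) (h2 : 14 * N ≤ 5 * n) (W : ℝ) (hW0 : 0 ≤ W) (hW : b ≤ 4 → 4 ≤ W) :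
    0 ≤ 196 * a * (a - 2) * N ^ 2 + 100 * b * (b - 2) * n ^ 2 + 65 * W * n ^ 2 -
      169 * a * b * n * N := by
  rcases Nat.lt_or_ge b 5 with hb5 | hb5
  · have hW4 : 4 ≤ W := hW (by omega)
    have hWn : 260 * n ^ 2 ≤ 65 * W * n ^ 2 := by nlinarith [sq_nonneg n]
    interval_cases b
    · have ha5 : (5 : ℝ) ≤ a := by exact_mod_cast (by omega : 5 ≤ a)
      have h4 := quad_nonneg (196 * a * (a - 2)) (338 * a) 260 N n
        (by nlinarith) (by nlinarith)
      push_cast
      nlinarith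
    · rcases Nat.lt_or_ge a 5 with ha5 | ha5
      · have : a = 4 := by omega
        subst this
        push_cast
        nlinarith [mul_nonneg (by linarith : (0:ℝ) ≤ 5 * n - 14 * N) hn.le,
          mul_nonneg (by linarith : (0:ℝ) ≤ 5 * n - 14 * N) hN.le]
      · have ha5' : (5 : ℝ) ≤ a := by exact_mod_cast ha5
        have h4 := quad_nonneg (196 * a * (a - 2)) (507 * a) 560 N n
          (by nlinarith) (by nlinarith)
        push_cast
        nlinarith
    · rcases Nat.lt_or_ge a 5 with ha5 | ha5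
      · interval_cases a
        · omega
        · omega
        · push_cast
          nlinarith [mul_nonneg (by linarith : (0:ℝ) ≤ 5 * n - 14 * N) hn.le,
            mul_nonneg (by linarith : (0:ℝ) ≤ 5 * n - 14 * N) hN.le]
        · push_cast
          nlinarith [mul_nonneg (by linarith : (0:ℝ) ≤ 5 * n - 14 * N) hn.le,
            mul_nonneg (by linarith : (0:ℝ) ≤ 5 * n - 14 * N) hN.le]
      · have ha5' : (5 : ℝ) ≤ a := by exact_mod_cast ha5
        have h4 := quad_nonneg (196 * a * (a - 2)) (676 * a) 1060 N n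
          (by nlinarith) (by nlinarith)
        push_cast
        nlinarith
  · have hb' : (5 : ℝ) ≤ b := by exact_mod_cast hb5
    have ha' : (1 : ℝ) ≤ a := by exact_mod_cast ha
    have h4 := quad_nonneg 196 (140 + 169 * b) (100 * b * (b - 2)) (a * N) n
      (by norm_num) (by nlinarith)
    have h5 : 0 ≤ 65 * W * n ^ 2 := by positivity
    have h6 : 0 ≤ (a : ℝ) * N * (140 * n - 392 * N) :=
      mul_nonneg (by positivity) (by linarith)
    nlinarith

end Pool.Agent.H284_beta
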