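import Mathlib
import Pool.Agent.H284_beta.Label
import Pool.Agent.H284_beta.Numeric

/-!
# The combinatorial argument for `p ≥ 7` in rank three
-/

set_option autoImplicit false

open Finset

namespace Pool.Agent.H284_beta

variable {ι : Type*} [Fintype ι] [DecidableEq ι]

/-- `Y` is closed under taking lines. -/
def ClosedUnder (L : ι → ι → Finset ι) (Y : Finset ι) : Prop :=
  ∀ i ∈ Y, ∀ j ∈ Y, i ≠ j → L i j ⊆ Y

/-- The weighted inequality in rank three. -/
def Ineq3 (L : ι → ι → Finset ι) : Prop :=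
  ∀ w : ι → ℝ, (∀ i, 0 < w i) → (∀ i, w i < 1) → ∑ i, w i = 3 →
    (∀ Y, ClosedUnder L Y → Y ≠ univ → ∑ i ∈ Y, w i < 2) →
    ∀ P ⊆ lines L, ∑ X ∈ P, ((∑ i ∈ X, w i) ^ 2 / 2 - ∑ i ∈ X, w i ^ 2) ≤ 3 - ∑ i, w i ^ 2

lemma sum_ite_mem (X U : Finset ι) (α β : ℝ) :
    ∑ i ∈ X, (if i ∈ U then α else β) = (X ∩ U).card * α + (X \ U).card * β := by
  rw [sum_ite, sum_const, sum_const, nsmul_eq_mul, nsmul_eq_mul, filter_mem_eq_inter,
    filter_notMem_eq_sdiff]

lemma card_inter_add_sdiff (X U : Finset ι) : (X ∩ U).card + (X \ U).card = X.card :=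
  card_inter_add_card_sdiff X U

lemma caseA {L : ι → ι → Finset ι} (hL : IsLinSp L) {p : ℕ} [Fact p.Prime] (hp : 7 ≤ p)
    {τ : ι → ZMod p} (hτ : Resonant L τ) (hnc : ∃ i j, τ i ≠ τ j) (hI : Ineq3 L)
    (U : Finset ι) (hU : ∀ i ∈ U, ∀ j, j ∉ U → τ i ≠ τ j)
    (h1 : 4 * Fintype.card ι ≤ 13 * U.card) (h2 : 13 * U.card ≤ 9 * Fintype.card ι) : False := by
  have hd : 7 ≤ Fintype.card ι := by
    obtain ⟨i, j, hij⟩ := hnc
    have h3 := hτ.le_card hL hij
    have h4 := card_le_univ (L i j)
    omega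
  have hcompl : U.card + (Uᶜ).card = Fintype.card ι := card_add_card_compl U
  set u : ℝ := (U.card : ℝ) with hu
  set v : ℝ := ((Uᶜ).card : ℝ) with hv
  have hun : 3 ≤ U.card := by omega
  have hvn : 3 ≤ (Uᶜ).card := by omega
  have hu3 : (3 : ℝ) ≤ u := by rw [hu]; exact_mod_cast hun
  have hv3 : (3 : ℝ) ≤ v := by rw [hv]; exact_mod_cast hvn
  have huv1 : 4 * v ≤ 9 * u := by
    have : 4 * (Uᶜ).card ≤ 9 * U.card := by omega
    rw [hu, hv]
    exact_mod_cast this
  have huv2 : 4 * u ≤ 9 * v := by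
    have : 4 * U.card ≤ 9 * (Uᶜ).card := by omega
    rw [hu, hv]
    exact_mod_cast this
  have hd' : (Fintype.card ι : ℝ) = u + v := by
    rw [hu, hv]; exact_mod_cast hcompl.symm
  set w : ι → ℝ := fun i => if i ∈ U then 3 / (2 * u) else 3 / (2 * v) with hw
  have hwpos : ∀ i, 0 < w i := by
    intro i
    simp only [hw]
    split_ifs <;> positivity
  have hw1 : ∀ i, w i < 1 := by
    intro i
    simp only [hw]
    split_ifs
    · rw [div_lt_one (by positivity)]; linarith
    · rw [div_lt_one (by positivity)]; linarith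
  have hwsum : ∀ X : Finset ι, ∑ i ∈ X, w i =
      (X ∩ U).card * (3 / (2 * u)) + (X \ U).card * (3 / (2 * v)) := by
    intro X
    exact sum_ite_mem X U _ _
  have htot : ∑ i, w i = 3 := by
    rw [hwsum univ, univ_inter]
    have : (univ \ U : Finset ι) = Uᶜ := by rw [compl_eq_univ_sdiff]
    rw [this, ← hu, ← hv]
    field_simp
    ring
  have hclosed : ∀ Y, ClosedUnder L Y → Y ≠ univ → ∑ i ∈ Y, w i < 2 := by
    intro Y hY hYne
    have h3 := bound_closed hL hτ hnc Y hY hYne
    have h4 : 7 * Y.card + 2 ≤ 2 * Fintype.card ι := by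
      have h5 : Y.card + (Yᶜ).card = Fintype.card ι := card_add_card_compl Y
      have h6 : 5 * Y.card ≤ (p - 2) * Y.card := Nat.mul_le_mul_right _ (by omega)
      omega
    rw [hwsum]
    have h5 := card_inter_add_sdiff Y U
    have h6 : ((Y ∩ U).card : ℝ) + (Y \ U).card = Y.card := by exact_mod_cast h5
    have h7 : 7 * (Y.card : ℝ) + 2 ≤ 2 * (u + v) := by
      rw [← hd']; exact_mod_cast h4
    have h8 : 3 / (2 * u) ≤ 39 / (8 * (u + v)) := by
      rw [div_le_div_iff₀ (by positivity) (by positivity)]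
      nlinarith
    have h9 : 3 / (2 * v) ≤ 39 / (8 * (u + v)) := by
      rw [div_le_div_iff₀ (by positivity) (by positivity)]
      nlinarith
    have h10 : ((Y ∩ U).card : ℝ) * (3 / (2 * u)) + (Y \ U).card * (3 / (2 * v)) ≤
        Y.card * (39 / (8 * (u + v))) := by
      rw [← h6, add_mul]
      exact add_le_add (mul_le_mul_of_nonneg_left h8 (Nat.cast_nonneg _))
        (mul_le_mul_of_nonneg_left h9 (Nat.cast_nonneg _))
    have h11 : (Y.card : ℝ) * (39 / (8 * (u + v))) < 2 := by
      rw [← mul_div_assoc, div_lt_iff₀ (by positivity)]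
      nlinarith
    linarith
  have hmain := hI w hwpos hw1 htot hclosed (cross L U) (cross_subset L U)
  have hlocal : ∀ X ∈ cross L U, 3 / (u * v) * (((X ∩ U).card : ℝ) * ((X \ U).card : ℝ)) ≤
      (∑ i ∈ X, w i) ^ 2 / 2 - ∑ i ∈ X, w i ^ 2 := by
    intro X hX
    have hX' := (mem_filter.mp hX)
    obtain ⟨i, hi⟩ := hX'.2.1
    obtain ⟨j, hj⟩ := hX'.2.2
    have hiX := (mem_inter.mp hi).1
    have hjX := (mem_sdiff.mp hj).1
    have hτij := hU i (mem_inter.mp hi).2 j (mem_sdiff.mp hj).2
    have hij : i ≠ j := fun h => hτij (by rw [h])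
    have hXe := hL.eq_line hX'.1 hij hiX hjX
    have h3 := hτ.le_card hL hτij
    rw [hXe] at h3
    have h4 := card_inter_add_sdiff X U
    have ha : 1 ≤ (X ∩ U).card := card_pos.mpr ⟨i, hi⟩
    have hb : 1 ≤ (X \ U).card := card_pos.mpr ⟨j, hj⟩
    have h5 := numA (X ∩ U).card (X \ U).card ha hb (by omega) u v (by linarith) (by linarith)
      huv1 huv2
    have hw2 : ∑ i ∈ X, w i ^ 2 =
        (X ∩ U).card * (3 / (2 * u)) ^ 2 + (X \ U).card * (3 / (2 * v)) ^ 2 := by
      rw [← sum_ite_mem]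
      refine sum_congr rfl (fun i _ => ?_)
      simp only [hw]
      split_ifs <;> rfl
    rw [hwsum, hw2]
    set a : ℝ := ((X ∩ U).card : ℝ)
    set b : ℝ := ((X \ U).card : ℝ)
    have h6 : (a * (3 / (2 * u)) + b * (3 / (2 * v))) ^ 2 / 2 -
        (a * (3 / (2 * u)) ^ 2 + b * (3 / (2 * v)) ^ 2) - 3 / (u * v) * (a * b) =
        3 / (8 * (u * v) ^ 2) *
          (3 * a * (a - 2) * v ^ 2 + 3 * b * (b - 2) * u ^ 2 - 2 * a * b * u * v) := by
      field_simp
      ring
    have h7 : 0 ≤ 3 / (8 * (u * v) ^ 2) *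
          (3 * a * (a - 2) * v ^ 2 + 3 * b * (b - 2) * u ^ 2 - 2 * a * b * u * v) :=
      mul_nonneg (by positivity) h5
    linarith
  have hsum := sum_le_sum hlocal
  rw [← mul_sum, hL.sum_cross U, ← hu, ← hv] at hsum
  have h3 : 3 / (u * v) * (u * v) = 3 := by field_simp
  have h4 : 0 < ∑ i, w i ^ 2 := by
    obtain ⟨i, _⟩ := hnc
    exact sum_pos (fun i _ => pow_pos (hwpos i) 2) ⟨i, mem_univ i⟩
  linarith

/-- The weight of a pair: unequal labels and opposite labels (relative to `c`). -/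
def pairW {p : ℕ} (τ : ι → ZMod p) (c : ZMod p) (i j : ι) : ℝ :=
  if τ i ≠ c ∧ τ j ≠ c then
    (if τ i ≠ τ j then 1 else 0) + (if (τ i - c) + (τ j - c) = 0 then 1 else 0)
  else 0

lemma pairW_nonneg {p : ℕ} (τ : ι → ZMod p) (c : ZMod p) (i j : ι) : 0 ≤ pairW τ c i j := by
  unfold pairW
  split_ifs <;> norm_num

lemma pairW_self {p : ℕ} [Fact p.Prime] (hp : 7 ≤ p) (τ : ι → ZMod p) (c : ZMod p) (i : ι) :
    pairW τ c i i = 0 := by
  unfold pairW
  by_cases h : τ i = c
  · simp [h]
  · have h2 : (τ i - c) + (τ i - c) ≠ 0 := by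
      rw [← two_mul]
      refine mul_ne_zero ?_ (sub_ne_zero.mpr h)
      have h3 : ((2 : ℕ) : ZMod p) ≠ 0 := by
        rw [Ne, ZMod.natCast_eq_zero_iff]
        intro h4
        have := Nat.le_of_dvd (by norm_num) h4
        omega
      exact_mod_cast h3
    simp [h, h2]

lemma pairW_one {p : ℕ} (τ : ι → ZMod p) (c : ZMod p) (i j : ι) (hi : τ i ≠ c) (hj : τ j ≠ c)
    (hij : τ i ≠ τ j) : 1 ≤ pairW τ c i j := by
  unfold pairW
  rw [if_pos ⟨hi, hj⟩, if_pos hij]
  split_ifs <;> norm_num

/-- Total weight of all pairs. -/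
lemma sum_pairW_le {p : ℕ} [Fact p.Prime] (τ : ι → ZMod p) (c : ZMod p) :
    ∑ i, ∑ j, pairW τ c i j ≤ ((univ.filter (fun i => τ i ≠ c)).card : ℝ) ^ 2 := by
  classical
  set V := univ.filter (fun i => τ i ≠ c) with hV
  set m : ZMod p → ℝ := fun x => ((V.filter (fun i => τ i - c = x)).card : ℝ) with hm
  have h1 : ∑ i, ∑ j, pairW τ c i j = ∑ i ∈ V, ∑ j ∈ V,
      ((if τ i ≠ τ j then (1 : ℝ) else 0) + (if (τ i - c) + (τ j - c) = 0 then 1 else 0)) := by
    rw [hV, sum_filter]
    refine sum_congr rfl (fun i _ => ?_)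
    by_cases hi : τ i ≠ c
    · rw [if_pos hi, sum_filter]
      refine sum_congr rfl (fun j _ => ?_)
      by_cases hj : τ j ≠ c
      · rw [if_pos hj]; unfold pairW; rw [if_pos ⟨hi, hj⟩]
      · rw [if_neg hj]; unfold pairW; rw [if_neg (fun h => hj h.2)]
    · rw [if_neg hi]
      refine sum_eq_zero (fun j _ => ?_)
      unfold pairW; rw [if_neg (fun h => hi h.1)]
  -- equal pairs
  have hfib : ∀ i ∈ V, τ i - c ∈ (univ : Finset (ZMod p)) := fun _ _ => mem_univ _
  have h2 : ∑ i ∈ V, ∑ j ∈ V, (if τ i = τ j then (1 : ℝ) else 0) = ∑ x, m x * m x := by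
    rw [← sum_fiberwise_of_maps_to hfib]
    refine sum_congr rfl (fun x _ => ?_)
    have : ∀ i ∈ V.filter (fun i => τ i - c = x),
        ∑ j ∈ V, (if τ i = τ j then (1 : ℝ) else 0) = m x := by
      intro i hi
      have hix := (mem_filter.mp hi).2
      rw [← sum_filter, sum_const, nsmul_eq_mul, mul_one]
      simp only [hm]
      have h7 : V.filter (fun j => τ i = τ j) = V.filter (fun j => τ j - c = x) := by
        refine filter_congr (fun j _ => ?_)
        rw [← hix]
        constructor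
        · intro h; rw [h]
        · intro h; exact (sub_left_injective h).symm
      rw [h7]
    rw [sum_congr rfl this, sum_const, nsmul_eq_mul]
  have h3 : ∑ i ∈ V, ∑ j ∈ V, (if (τ i - c) + (τ j - c) = 0 then (1 : ℝ) else 0) =
      ∑ x, m x * m (-x) := by
    rw [← sum_fiberwise_of_maps_to hfib]
    refine sum_congr rfl (fun x _ => ?_)
    have : ∀ i ∈ V.filter (fun i => τ i - c = x),
        ∑ j ∈ V, (if (τ i - c) + (τ j - c) = 0 then (1 : ℝ) else 0) = m (-x) := by
      intro i hi
      have hix := (mem_filter.mp hi).2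
      rw [← sum_filter, sum_const, nsmul_eq_mul, mul_one]
      simp only [hm]
      have h7 : V.filter (fun j => (τ i - c) + (τ j - c) = 0) =
          V.filter (fun j => τ j - c = -x) := by
        refine filter_congr (fun j _ => ?_)
        rw [← hix]
        exact ⟨fun h => eq_neg_of_add_eq_zero_right h, fun h => by rw [h, add_neg_cancel]⟩
      rw [h7]
    rw [sum_congr rfl this, sum_const, nsmul_eq_mul]
  have h4 : ∑ x, m x * m (-x) ≤ ∑ x, m x * m x := by
    have h5 : ∑ x, m (-x) * m (-x) = ∑ x, m x * m x :=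
      Equiv.sum_comp (Equiv.neg (ZMod p)) (fun x => m x * m x)
    have h6 : ∑ x, 2 * (m x * m (-x)) ≤ ∑ x, (m x * m x + m (-x) * m (-x)) :=
      sum_le_sum (fun x _ => by nlinarith [sq_nonneg (m x - m (-x))])
    rw [← mul_sum, sum_add_distrib, h5] at h6
    linarith
  have h5 : ∑ i ∈ V, ∑ j ∈ V, (if τ i ≠ τ j then (1 : ℝ) else 0) +
      ∑ i ∈ V, ∑ j ∈ V, (if τ i = τ j then (1 : ℝ) else 0) = (V.card : ℝ) ^ 2 := by
    rw [← sum_add_distrib]
    have : ∀ i ∈ V, ∑ j ∈ V, (if τ i ≠ τ j then (1 : ℝ) else 0) +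
        ∑ j ∈ V, (if τ i = τ j then (1 : ℝ) else 0) = V.card := by
      intro i _
      rw [← sum_add_distrib]
      have : ∀ j ∈ V, (if τ i ≠ τ j then (1 : ℝ) else 0) +
          (if τ i = τ j then (1 : ℝ) else 0) = 1 := by
        intro j _
        by_cases h : τ i = τ j <;> simp [h]
      rw [sum_congr rfl this]
      simp
    rw [sum_congr rfl this, sum_const, nsmul_eq_mul, sq]
  rw [h1]
  simp only [sum_add_distrib]
  linarith

lemma caseB {L : ι → ι → Finset ι} (hL : IsLinSp L) {p : ℕ} [Fact p.Prime] (hp : 7 ≤ p)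
    {τ : ι → ZMod p} (hτ : Resonant L τ) (hnc : ∃ i j, τ i ≠ τ j) (hI : Ineq3 L)
    (c : ZMod p)
    (h1 : 9 * Fintype.card ι < 13 * (univ.filter (fun i => τ i = c)).card) : False := by
  set C := univ.filter (fun i => τ i = c) with hC
  have hcompl : C.card + (Cᶜ).card = Fintype.card ι := card_add_card_compl C
  have hCc : Cᶜ = univ.filter (fun i => τ i ≠ c) := by
    ext i
    simp [hC]
  have hd : 7 ≤ Fintype.card ι := by
    obtain ⟨i, j, hij⟩ := hnc
    have h3 := hτ.le_card hL hij
    have h4 := card_le_univ (L i j)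
    omega
  set n : ℝ := (C.card : ℝ) with hn
  set N : ℝ := ((Cᶜ).card : ℝ) with hN
  -- facts about the lines in `cross L C`
  have hcross : ∀ X ∈ cross L C, 1 ≤ (X ∩ C).card ∧ 2 ≤ (X \ C).card ∧
      7 ≤ (X ∩ C).card + (X \ C).card ∧
      ((X \ C).card ≤ 4 → (4 : ℝ) ≤ ∑ i ∈ X, ∑ j ∈ X, pairW τ c i j) := by
    intro X hX
    have hX' := (mem_filter.mp hX)
    obtain ⟨i, hi⟩ := hX'.2.1
    obtain ⟨j, hj⟩ := hX'.2.2
    have hiX := (mem_inter.mp hi).1
    have hjX := (mem_sdiff.mp hj).1
    have hτi : τ i = c := (mem_filter.mp (mem_inter.mp hi).2).2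
    have hτj : τ j ≠ c := fun h => (mem_sdiff.mp hj).2 (mem_filter.mpr ⟨mem_univ _, h⟩)
    have hτij : τ i ≠ τ j := by rw [hτi]; exact hτj.symm
    have hij : i ≠ j := fun h => hτij (by rw [h])
    have hXe := hL.eq_line hX'.1 hij hiX hjX
    have h3 := hτ.le_card hL hτij
    rw [hXe] at h3
    have h4 := card_inter_add_sdiff X C
    have ha : 1 ≤ (X ∩ C).card := card_pos.mpr ⟨i, hi⟩
    have hb : 1 ≤ (X \ C).card := card_pos.mpr ⟨j, hj⟩
    have hsum : ∑ k ∈ X \ C, (τ k - c) = 0 := by
      have h5 := hτ.sum_sub hL hτij c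
      rw [hXe] at h5
      rw [← h5, ← sum_inter_add_sum_sdiff X C]
      have h6 : ∑ k ∈ X ∩ C, (τ k - c) = 0 := by
        refine sum_eq_zero (fun k hk => ?_)
        rw [(mem_filter.mp (mem_inter.mp hk).2).2, sub_self]
      rw [h6, zero_add]
    have hneC : ∀ k ∈ X \ C, τ k ≠ c := fun k hk h =>
      (mem_sdiff.mp hk).2 (mem_filter.mpr ⟨mem_univ _, h⟩)
    have hb2 : 2 ≤ (X \ C).card := by
      by_contra hcon
      have h5 : (X \ C).card = 1 := by omega
      obtain ⟨k, hk⟩ := card_eq_one.mp h5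
      rw [hk, sum_singleton] at hsum
      exact hneC k (by rw [hk]; exact mem_singleton_self k) (sub_eq_zero.mp hsum)
    refine ⟨ha, hb2, by omega, fun hb4 => ?_⟩
    -- there are two points of `X` outside `C` with different labels
    obtain ⟨k, hk, l, hl, hkl⟩ : ∃ k ∈ X \ C, ∃ l ∈ X \ C, τ k ≠ τ l := by
      by_contra hcon
      push Not at hcon
      have h5 : ∑ k ∈ X \ C, (τ k - c) = ((X \ C).card : ZMod p) * (τ j - c) := by
        rw [sum_congr rfl (fun k hk => by rw [hcon k hk j hj]), sum_const, nsmul_eq_mul]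
      rw [hsum] at h5
      rcases mul_eq_zero.mp h5.symm with h6 | h6
      · rw [ZMod.natCast_eq_zero_iff] at h6
        have := Nat.le_of_dvd (by omega) h6
        omega
      · exact hτj (sub_eq_zero.mp h6)
    have hkX := (mem_sdiff.mp hk).1
    have hlX := (mem_sdiff.mp hl).1
    have hklne : k ≠ l := fun h => hkl (by rw [h])
    -- lower bound by the sum over a finset of pairs
    have hlow : ∀ S : Finset (ι × ι), S ⊆ X ×ˢ X →
        ∑ q ∈ S, pairW τ c q.1 q.2 ≤ ∑ i ∈ X, ∑ j ∈ X, pairW τ c i j := by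
      intro S hS
      rw [← sum_product']
      exact sum_le_sum_of_subset_of_nonneg hS (fun q _ _ => pairW_nonneg τ c _ _)
    rcases Nat.lt_or_ge (X \ C).card 3 with hb3 | hb3
    · -- exactly two points
      have h5 : (X \ C).card = 2 := by omega
      have h6 : X \ C = {k, l} := by
        symm
        apply eq_of_subset_of_card_le
        · intro x hx
          simp only [mem_insert, mem_singleton] at hx
          rcases hx with rfl | rfl <;> assumption
        · rw [h5, card_pair hklne]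
      rw [h6, sum_pair hklne] at hsum
      have hsum' : (τ l - c) + (τ k - c) = 0 := by rw [add_comm]; exact hsum
      have h7 : pairW τ c k l = 2 := by
        unfold pairW
        rw [if_pos ⟨hneC k hk, hneC l hl⟩, if_pos hkl, if_pos hsum]
        norm_num
      have h8 : pairW τ c l k = 2 := by
        unfold pairW
        rw [if_pos ⟨hneC l hl, hneC k hk⟩, if_pos hkl.symm, if_pos hsum']
        norm_num
      have h9 := hlow {(k, l), (l, k)} (by
        intro q hq
        simp only [mem_insert, mem_singleton] at hq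
        rcases hq with rfl | rfl <;> simp [hkX, hlX])
      rw [sum_pair (by
        intro h
        exact hklne (congrArg Prod.fst h)), h7, h8] at h9
      linarith
    · -- a third point
      obtain ⟨m, hm, hmk, hml⟩ : ∃ m ∈ X \ C, m ≠ k ∧ m ≠ l := by
        by_contra hcon
        push Not at hcon
        have h6 : X \ C ⊆ {k, l} := by
          intro x hx
          simp only [mem_insert, mem_singleton]
          by_cases hxk : x = k
          · exact Or.inl hxk
          · exact Or.inr (hcon x hx hxk)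
        have h7 := card_le_card h6
        rw [card_pair hklne] at h7
        omega
      have hmX := (mem_sdiff.mp hm).1
      by_cases hmτ : τ m = τ k
      · have hml' : τ m ≠ τ l := by rw [hmτ]; exact hkl
        have h9 := hlow {(k, l), (l, k), (m, l), (l, m)} (by
          intro q hq
          simp only [mem_insert, mem_singleton] at hq
          rcases hq with rfl | rfl | rfl | rfl <;> simp [hkX, hlX, hmX])
        have e1 := pairW_one τ c k l (hneC k hk) (hneC l hl) hkl
        have e2 := pairW_one τ c l k (hneC l hl) (hneC k hk) hkl.symm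
        have e3 := pairW_one τ c m l (hneC m hm) (hneC l hl) hml'
        have e4 := pairW_one τ c l m (hneC l hl) (hneC m hm) hml'.symm
        rw [sum_insert, sum_insert, sum_insert, sum_singleton] at h9
        · linarith
        · simp only [mem_singleton, Prod.mk.injEq, not_and]
          intro h; exact absurd h hml
        · simp only [mem_insert, mem_singleton, Prod.mk.injEq, not_or, not_and]
          exact ⟨fun h => absurd h.symm hml, fun _ h => hmk h.symm⟩
        · simp only [mem_insert, mem_singleton, Prod.mk.injEq, not_or, not_and]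
          exact ⟨fun h => absurd h hklne, fun h => absurd h.symm hmk, fun h => absurd h hklne⟩
      · have h9 := hlow {(k, l), (l, k), (m, k), (k, m)} (by
          intro q hq
          simp only [mem_insert, mem_singleton] at hq
          rcases hq with rfl | rfl | rfl | rfl <;> simp [hkX, hlX, hmX])
        have e1 := pairW_one τ c k l (hneC k hk) (hneC l hl) hkl
        have e2 := pairW_one τ c l k (hneC l hl) (hneC k hk) hkl.symm
        have e3 := pairW_one τ c m k (hneC m hm) (hneC k hk) hmτ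
        have e4 := pairW_one τ c k m (hneC k hk) (hneC m hm) (Ne.symm hmτ)
        rw [sum_insert, sum_insert, sum_insert, sum_singleton] at h9
        · linarith
        · simp only [mem_singleton, Prod.mk.injEq, not_and]
          intro h; exact absurd h hmk
        · simp only [mem_insert, mem_singleton, Prod.mk.injEq, not_or, not_and]
          exact ⟨fun h => absurd h.symm hml, fun h => absurd h.symm hklne⟩
        · simp only [mem_insert, mem_singleton, Prod.mk.injEq, not_or, not_and]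
          exact ⟨fun h => absurd h hklne, fun h => absurd h.symm hmk,
            fun _ h => hml h.symm⟩
  -- there is a line in `cross L C`
  obtain ⟨X0, hX0⟩ : (cross L C).Nonempty := by
    have hCne : ∃ i, τ i = c := by
      by_contra hcon
      push Not at hcon
      have : C = ∅ := by
        rw [hC]; exact filter_eq_empty_iff.mpr (fun i _ => hcon i)
      rw [this] at h1
      simp at h1
    obtain ⟨i, hi⟩ := hCne
    obtain ⟨j, hj⟩ : ∃ j, τ j ≠ c := by
      by_contra hcon
      push Not at hcon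
      obtain ⟨a, b, hab⟩ := hnc
      exact hab (by rw [hcon a, hcon b])
    have hij : i ≠ j := fun h => hj (by rw [← h, hi])
    refine ⟨L i j, mem_filter.mpr ⟨line_mem_lines hij, ⟨i, ?_⟩, ⟨j, ?_⟩⟩⟩
    · exact mem_inter.mpr ⟨hL.left_mem i j hij, mem_filter.mpr ⟨mem_univ _, hi⟩⟩
    · exact mem_sdiff.mpr ⟨hL.right_mem i j hij, fun h => hj (mem_filter.mp h).2⟩
  have hNn : 2 ≤ (Cᶜ).card := by
    have h3 := (hcross X0 hX0).2.1
    have h4 : X0 \ C ⊆ Cᶜ := by
      intro x hx
      exact mem_compl.mpr (mem_sdiff.mp hx).2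
    exact h3.trans (card_le_card h4)
  have hnn : 3 ≤ C.card := by omega
  have hN2 : (2 : ℝ) ≤ N := by rw [hN]; exact_mod_cast hNn
  have hn3 : (3 : ℝ) ≤ n := by rw [hn]; exact_mod_cast hnn
  have h94 : 9 * N ≤ 4 * n := by
    have : 9 * (Cᶜ).card ≤ 4 * C.card := by omega
    rw [hn, hN]
    exact_mod_cast this
  have hd' : (Fintype.card ι : ℝ) = n + N := by
    rw [hn, hN]; exact_mod_cast hcompl.symm
  set w : ι → ℝ := fun i => if i ∈ C then 7 / (4 * n) else 5 / (4 * N) with hw
  have hwpos : ∀ i, 0 < w i := by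
    intro i
    simp only [hw]
    split_ifs <;> positivity
  have hw1 : ∀ i, w i < 1 := by
    intro i
    simp only [hw]
    split_ifs
    · rw [div_lt_one (by positivity)]; linarith
    · rw [div_lt_one (by positivity)]; linarith
  have hwsum : ∀ X : Finset ι, ∑ i ∈ X, w i =
      (X ∩ C).card * (7 / (4 * n)) + (X \ C).card * (5 / (4 * N)) := by
    intro X
    exact sum_ite_mem X C _ _
  have htot : ∑ i, w i = 3 := by
    rw [hwsum univ, univ_inter]
    have : (univ \ C : Finset ι) = Cᶜ := by rw [compl_eq_univ_sdiff]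
    rw [this, ← hn, ← hN]
    field_simp
    ring
  have hclosed : ∀ Y, ClosedUnder L Y → Y ≠ univ → ∑ i ∈ Y, w i < 2 := by
    intro Y hY hYne
    have h3 := bound_closed hL hτ hnc Y hY hYne
    have h4 : 7 * Y.card + 2 ≤ 2 * Fintype.card ι := by
      have h5 : Y.card + (Yᶜ).card = Fintype.card ι := card_add_card_compl Y
      have h6 : 5 * Y.card ≤ (p - 2) * Y.card := Nat.mul_le_mul_right _ (by omega)
      omega
    rw [hwsum]
    have h5 := card_inter_add_sdiff Y C
    have h6 : ((Y ∩ C).card : ℝ) + (Y \ C).card = Y.card := by exact_mod_cast h5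
    have h7 : 7 * (Y.card : ℝ) + 2 ≤ 2 * (n + N) := by
      rw [← hd']; exact_mod_cast h4
    have h8 : ((Y \ C).card : ℝ) ≤ N := by
      have : (Y \ C).card ≤ (Cᶜ).card := card_le_card (fun x hx =>
        mem_compl.mpr (mem_sdiff.mp hx).2)
      rw [hN]
      exact_mod_cast this
    have h9 : ((Y ∩ C).card : ℝ) ≤ Y.card := by
      have : (Y ∩ C).card ≤ Y.card := card_le_card inter_subset_left
      exact_mod_cast this
    have h10 : ((Y \ C).card : ℝ) * (5 / (4 * N)) ≤ 5 / 4 := by
      rw [← mul_div_assoc, div_le_div_iff₀ (by positivity) (by positivity)]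
      nlinarith
    have h11 : ((Y ∩ C).card : ℝ) * (7 / (4 * n)) < 3 / 4 := by
      rw [← mul_div_assoc, div_lt_div_iff₀ (by positivity) (by positivity)]
      nlinarith
    linarith
  have hmain := hI w hwpos hw1 htot hclosed (cross L C) (cross_subset L C)
  have hw2 : ∀ X : Finset ι, ∑ i ∈ X, w i ^ 2 =
      (X ∩ C).card * (7 / (4 * n)) ^ 2 + (X \ C).card * (5 / (4 * N)) ^ 2 := by
    intro X
    rw [← sum_ite_mem]
    refine sum_congr rfl (fun i _ => ?_)
    simp only [hw]
    split_ifs <;> rfl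
  have h4 : 0 < ∑ i, w i ^ 2 := by
    obtain ⟨i, _⟩ := hnc
    exact sum_pos (fun i _ => pow_pos (hwpos i) 2) ⟨i, mem_univ i⟩
  have hcr := hL.sum_cross C
  rw [← hn, ← hN] at hcr
  have hnN : n * N ≠ 0 := by positivity
  rcases le_or_gt (5 * n) (14 * N) with h5 | h5
  · -- first range
    have hlocal : ∀ X ∈ cross L C, 3 / (n * N) * (((X ∩ C).card : ℝ) * ((X \ C).card : ℝ)) ≤
        (∑ i ∈ X, w i) ^ 2 / 2 - ∑ i ∈ X, w i ^ 2 := by
      intro X hX
      obtain ⟨ha, hb, hab, _⟩ := hcross X hX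
      have h6 := numB1 (X ∩ C).card (X \ C).card ha hb hab n N (by linarith) (by linarith)
        h94 h5
      rw [hwsum, hw2]
      set a : ℝ := ((X ∩ C).card : ℝ)
      set b : ℝ := ((X \ C).card : ℝ)
      have h7 : (a * (7 / (4 * n)) + b * (5 / (4 * N))) ^ 2 / 2 -
          (a * (7 / (4 * n)) ^ 2 + b * (5 / (4 * N)) ^ 2) - 3 / (n * N) * (a * b) =
          1 / (32 * (n * N) ^ 2) *
            (49 * a * (a - 2) * N ^ 2 + 25 * b * (b - 2) * n ^ 2 - 26 * a * b * n * N) := by
        field_simp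
        ring
      have h8 : 0 ≤ 1 / (32 * (n * N) ^ 2) *
            (49 * a * (a - 2) * N ^ 2 + 25 * b * (b - 2) * n ^ 2 - 26 * a * b * n * N) :=
        mul_nonneg (by positivity) h6
      linarith
    have hsum := sum_le_sum hlocal
    rw [← mul_sum, hcr, div_mul_cancel₀ _ hnN] at hsum
    linarith
  · -- second range
    have hlocal : ∀ X ∈ cross L C,
        449 / (128 * (n * N)) * (((X ∩ C).card : ℝ) * ((X \ C).card : ℝ)) -
          65 / (128 * N ^ 2) * ∑ i ∈ X, ∑ j ∈ X, pairW τ c i j ≤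
        (∑ i ∈ X, w i) ^ 2 / 2 - ∑ i ∈ X, w i ^ 2 := by
      intro X hX
      obtain ⟨ha, hb, hab, hW⟩ := hcross X hX
      have h6 := numB2 (X ∩ C).card (X \ C).card ha hb hab n N (by linarith) (by linarith)
        h5.le (∑ i ∈ X, ∑ j ∈ X, pairW τ c i j)
        (sum_nonneg (fun i _ => sum_nonneg (fun j _ => pairW_nonneg τ c i j))) hW
      rw [hwsum, hw2]
      set a : ℝ := ((X ∩ C).card : ℝ)
      set b : ℝ := ((X \ C).card : ℝ)
      set W : ℝ := ∑ i ∈ X, ∑ j ∈ X, pairW τ c i j
      have h7 : (a * (7 / (4 * n)) + b * (5 / (4 * N))) ^ 2 / 2 -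
          (a * (7 / (4 * n)) ^ 2 + b * (5 / (4 * N)) ^ 2) -
          (449 / (128 * (n * N)) * (a * b) - 65 / (128 * N ^ 2) * W) =
          1 / (128 * (n * N) ^ 2) *
            (196 * a * (a - 2) * N ^ 2 + 100 * b * (b - 2) * n ^ 2 + 65 * W * n ^ 2 -
              169 * a * b * n * N) := by
        field_simp
        ring
      have h8 : 0 ≤ 1 / (128 * (n * N) ^ 2) *
            (196 * a * (a - 2) * N ^ 2 + 100 * b * (b - 2) * n ^ 2 + 65 * W * n ^ 2 -
              169 * a * b * n * N) :=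
        mul_nonneg (by positivity) h6
      linarith
    have hsum := sum_le_sum hlocal
    rw [sum_sub_distrib, ← mul_sum, ← mul_sum, hcr] at hsum
    have hWtot : ∑ X ∈ cross L C, ∑ i ∈ X, ∑ j ∈ X, pairW τ c i j ≤ N ^ 2 := by
      have h6 := hL.sum_pairs_le (cross_subset L C) (pairW τ c) (pairW_nonneg τ c)
        (pairW_self hp τ c)
      refine h6.trans ?_
      have h7 := sum_pairW_le τ c
      rw [← hCc, ← hN] at h7
      exact h7
    have h6 : 449 / (128 * (n * N)) * (n * N) = 449 / 128 := by field_simp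
    have h7 : 65 / (128 * N ^ 2) * (∑ X ∈ cross L C, ∑ i ∈ X, ∑ j ∈ X, pairW τ c i j) ≤
        65 / 128 := by
      calc 65 / (128 * N ^ 2) * (∑ X ∈ cross L C, ∑ i ∈ X, ∑ j ∈ X, pairW τ c i j)
          ≤ 65 / (128 * N ^ 2) * N ^ 2 := mul_le_mul_of_nonneg_left hWtot (by positivity)
        _ = 65 / 128 := by field_simp
    linarith

end Pool.Agent.H284_beta
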