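import Mathlib

/-!
# The greedy basis and the coercivity estimate
-/

set_option autoImplicit false

open Finset

namespace Pool.Agent.H284_beta

variable {ι : Type*} {ℓ : ℕ}

/-- The span of the first `k` vectors of a family `b`. -/
def flag {n : ℕ} (f : ι → (Fin ℓ → ℂ)) (b : Fin n → ι) (k : ℕ) : Submodule ℂ (Fin ℓ → ℂ) :=
  Submodule.span ℂ ((fun m => f (b m)) '' {m : Fin n | (m : ℕ) < k})

lemma flag_mono {n : ℕ} (f : ι → (Fin ℓ → ℂ)) (b : Fin n → ι) : Monotone (flag f b) := by
  intro k l hkl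
  apply Submodule.span_mono
  apply Set.image_mono
  intro m hm
  exact lt_of_lt_of_le hm hkl

lemma flag_zero {n : ℕ} (f : ι → (Fin ℓ → ℂ)) (b : Fin n → ι) : flag f b 0 = ⊥ := by
  simp [flag]

lemma flag_full {n : ℕ} (f : ι → (Fin ℓ → ℂ)) (b : Fin n → ι) :
    flag f b n = Submodule.span ℂ (Set.range (f ∘ b)) := by
  have : {m : Fin n | (m : ℕ) < n} = Set.univ := by ext m; simp
  rw [flag, this, Set.image_univ]
  rfl

lemma finrank_flag {n : ℕ} (f : ι → (Fin ℓ → ℂ)) (b : Fin n → ι)
    (hb : LinearIndependent ℂ (f ∘ b)) (k : ℕ) (hk : k ≤ n) :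
    Module.finrank ℂ (flag f b k) = k := by
  have h1 : flag f b k = Submodule.span ℂ (Set.range (fun m : Fin k => f (b (Fin.castLE hk m)))) := by
    rw [flag]
    congr 1
    ext x
    constructor
    · rintro ⟨m, hm, rfl⟩
      exact ⟨⟨m, hm⟩, by simp [Fin.castLE]⟩
    · rintro ⟨m, rfl⟩
      exact ⟨Fin.castLE hk m, by simp, rfl⟩
  have h2 : LinearIndependent ℂ (fun m : Fin k => f (b (Fin.castLE hk m))) :=
    hb.comp (Fin.castLE hk) (Fin.castLE_injective hk)
  rw [h1, finrank_span_eq_card h2, Fintype.card_fin]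

lemma exists_greedy [Fintype ι] (f : ι → (Fin ℓ → ℂ)) (hf : Submodule.span ℂ (Set.range f) = ⊤) (z : ι → ℝ)
    (n : ℕ) (hn : n ≤ ℓ) :
    ∃ b : Fin n → ι, LinearIndependent ℂ (f ∘ b) ∧
      ∀ k : Fin n, ∀ j, f j ∉ flag f b k → z j ≤ z (b k) := by
  classical
  induction n with
  | zero => exact ⟨Fin.elim0, linearIndependent_empty_type, fun k => k.elim0⟩
  | succ n ih =>
    obtain ⟨b, hb, hmax⟩ := ih (by omega)
    have hne : ∃ j, f j ∉ flag f b n := by
      by_contra hcon
      push Not at hcon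
      have h1 : (⊤ : Submodule ℂ (Fin ℓ → ℂ)) ≤ flag f b n := by
        rw [← hf, Submodule.span_le]
        rintro _ ⟨j, rfl⟩
        exact hcon j
      have h2 := finrank_flag f b hb n le_rfl
      rw [top_le_iff.mp h1, finrank_top, Module.finrank_fin_fun] at h2
      omega
    obtain ⟨j0, hj0, hj0max⟩ := (univ.filter (fun j => f j ∉ flag f b n)).exists_max_image z
      (by obtain ⟨j, hj⟩ := hne; exact ⟨j, by simp [hj]⟩)
    simp only [mem_filter, mem_univ, true_and] at hj0 hj0max
    have hflag : ∀ k : ℕ, k ≤ n → flag f (Fin.snoc b j0 : Fin (n + 1) → ι) k = flag f b k := by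
      intro k hk
      rw [flag, flag]
      congr 1
      ext x
      constructor
      · rintro ⟨m, hm, rfl⟩
        have hm' : (m : ℕ) < n := lt_of_lt_of_le hm hk
        refine ⟨⟨m, hm'⟩, hm, ?_⟩
        have : m = Fin.castSucc ⟨m, hm'⟩ := rfl
        simp only
        conv_rhs => rw [this]
        rw [Fin.snoc_castSucc (α := fun _ => ι)]
      · rintro ⟨m, hm, rfl⟩
        refine ⟨Fin.castSucc m, hm, ?_⟩
        simp only
        rw [Fin.snoc_castSucc (α := fun _ => ι)]
    refine ⟨(Fin.snoc b j0 : Fin (n + 1) → ι), ?_, ?_⟩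
    · have hcomp : f ∘ (Fin.snoc b j0 : Fin (n + 1) → ι) = Fin.snoc (f ∘ b) (f j0) := by
        exact Fin.comp_snoc f b j0
      rw [hcomp]
      exact linearIndependent_finSnoc.mpr ⟨hb, by rw [← flag_full]; exact hj0⟩
    · intro k
      refine Fin.lastCases ?_ (fun k => ?_) k
      · intro j hj
        rw [Fin.val_last, hflag n le_rfl] at hj
        rw [Fin.snoc_last (α := fun _ => ι)]
        exact hj0max j hj
      · intro j hj
        rw [Fin.val_castSucc, hflag k (le_of_lt k.2)] at hj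
        rw [Fin.snoc_castSucc (α := fun _ => ι)]
        exact hmax k j hj

end Pool.Agent.H284_beta
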