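import Mathlib
import Pool.Agent.H284_beta.Greedy

/-!
# The coercivity estimate
-/

set_option autoImplicit false

open Finset

namespace Pool.Agent.H284_beta

variable {ι : Type*} [Fintype ι] {ℓ : ℕ}

lemma abel_sum (T : ℕ → ℝ) (n : ℕ) :
    ∑ k ∈ range n, T k = n * T n + ∑ k ∈ range n, (T k - T (k + 1)) * ((k : ℝ) + 1) := by
  induction n with
  | zero => simp
  | succ n ih =>
    rw [sum_range_succ, ih, sum_range_succ]
    push_cast
    ring

open Classical in
/-- The weight of a subspace. -/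
noncomputable def wt (f : ι → (Fin ℓ → ℂ)) (w : ι → ℝ) (W : Submodule ℂ (Fin ℓ → ℂ)) : ℝ :=
  ∑ i ∈ univ.filter (fun i => f i ∈ W), w i

lemma coercive (hℓ : 0 < ℓ) (f : ι → (Fin ℓ → ℂ)) (hf : Submodule.span ℂ (Set.range f) = ⊤)
    (hf0 : ∀ i, f i ≠ 0) (w : ι → ℝ) (ε : ℝ) (hε : 0 < ε) (hw : ∀ i, ε ≤ w i)
    (hsum : ∑ i, w i = ℓ)
    (hst : ∀ W : Submodule ℂ (Fin ℓ → ℂ), W ≠ ⊤ → (∃ i, f i ∈ W) →
      wt f w W + ε ≤ Module.finrank ℂ W) (z : ι → ℝ) :
    ∃ b : Fin ℓ → ι, LinearIndependent ℂ (f ∘ b) ∧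
      ∀ i j, ε * (z i - z j) ≤ ∑ k, z (b k) - ∑ i, w i * z i := by
  classical
  obtain ⟨b, hb, hmax⟩ := exists_greedy f hf z ℓ le_rfl
  refine ⟨b, hb, ?_⟩
  have hlt : ∀ k : ℕ, min k (ℓ - 1) < ℓ := fun k => by omega
  set T : ℕ → ℝ := fun k => z (b ⟨min k (ℓ - 1), hlt k⟩) with hT
  have hTk : ∀ k : Fin ℓ, T k = z (b k) := by
    intro k
    simp only [hT]
    congr 2
    apply Fin.ext
    have := k.2
    simp only
    omega
  have hTlast : T (ℓ - 1) = T ℓ := by
    simp only [hT]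
    congr 2
    apply Fin.ext
    simp
  -- vectors not in the flag
  have hnot : ∀ k l : ℕ, k ≤ l → ∀ hl : l < ℓ, f (b ⟨l, hl⟩) ∉ flag f b k := by
    intro k l hkl hl hmem
    have h1 : f (b ⟨l, hl⟩) ∉ Submodule.span ℂ ((f ∘ b) '' {m : Fin ℓ | (m : ℕ) < k}) := by
      apply hb.notMem_span_image
      simp only [Set.mem_ofPred_eq]
      omega
    exact h1 hmem
  have hanti : ∀ k, k < ℓ → T (k + 1) ≤ T k := by
    intro k hk
    by_cases hk1 : k + 1 < ℓ
    · have h1 := hmax ⟨k, hk⟩ (b ⟨k + 1, hk1⟩) (hnot k (k + 1) (by omega) hk1)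
      have h2 := hTk ⟨k, hk⟩
      have h3 := hTk ⟨k + 1, hk1⟩
      simp only at h2 h3
      rw [h2, h3]
      exact h1
    · have : k = ℓ - 1 := by omega
      subst this
      have h2 : ℓ - 1 + 1 = ℓ := by omega
      rw [h2, hTlast]
  set a : ι → ℕ → ℝ := fun j k => if f j ∈ flag f b (k + 1) then 1 else 0 with ha
  set U : ι → ℝ := fun j => T ℓ + ∑ k ∈ range ℓ, (T k - T (k + 1)) * a j k with hU
  have ha0 : ∀ j k, 0 ≤ a j k := by
    intro j k
    simp only [ha]
    split_ifs <;> norm_num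
  have hUT : ∀ j, T ℓ ≤ U j := by
    intro j
    simp only [hU]
    have : 0 ≤ ∑ k ∈ range ℓ, (T k - T (k + 1)) * a j k := by
      apply sum_nonneg
      intro k hk
      exact mul_nonneg (sub_nonneg.mpr (hanti k (mem_range.mp hk))) (ha0 j k)
    linarith
  have hflagtop : flag f b ℓ = ⊤ := by
    rw [flag_full]
    apply hb.span_eq_top_of_card_eq_finrank'
    simp
  have hUz : ∀ j, z j ≤ U j := by
    intro j
    have hex : ∃ k, f j ∈ flag f b (k + 1) := by
      refine ⟨ℓ - 1, ?_⟩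
      have : ℓ - 1 + 1 = ℓ := by omega
      rw [this, hflagtop]
      trivial
    obtain ⟨κ, hκ, hκmin⟩ : ∃ κ, f j ∈ flag f b (κ + 1) ∧ ∀ k < κ, f j ∉ flag f b (k + 1) :=
      ⟨Nat.find hex, Nat.find_spec hex, fun k hk => Nat.find_min hex hk⟩
    have hκℓ : κ < ℓ := by
      by_contra hcon
      have h1 := hκmin (ℓ - 1) (by omega)
      have : ℓ - 1 + 1 = ℓ := by omega
      rw [this, hflagtop] at h1
      exact h1 trivial
    have hκnot : f j ∉ flag f b κ := by
      rcases Nat.eq_zero_or_pos κ with h0 | h0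
      · subst h0
        rw [flag_zero]
        simpa using hf0 j
      · have h1 := hκmin (κ - 1) (by omega)
        have : κ - 1 + 1 = κ := by omega
        rwa [this] at h1
    have h1 := hmax ⟨κ, hκℓ⟩ j hκnot
    rw [← hTk] at h1
    simp only at h1
    refine h1.trans ?_
    simp only [hU]
    have h2 : ∑ k ∈ Ico κ ℓ, (T k - T (k + 1)) ≤ ∑ k ∈ range ℓ, (T k - T (k + 1)) * a j k := by
      calc ∑ k ∈ Ico κ ℓ, (T k - T (k + 1))
          = ∑ k ∈ Ico κ ℓ, (T k - T (k + 1)) * a j k := by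
            refine sum_congr rfl (fun k hk => ?_)
            have hmem : f j ∈ flag f b (k + 1) :=
              flag_mono f b (by have := (mem_Ico.mp hk).1; omega) hκ
            simp [ha, hmem]
        _ ≤ _ := by
            apply sum_le_sum_of_subset_of_nonneg
            · intro k hk
              exact mem_range.mpr (mem_Ico.mp hk).2
            · intro k hk _
              exact mul_nonneg (sub_nonneg.mpr (hanti k (mem_range.mp hk))) (ha0 j k)
    have h3 : ∑ k ∈ Ico κ ℓ, (T k - T (k + 1)) = T κ - T ℓ := by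
      rw [sum_Ico_eq_sub _ hκℓ.le, sum_range_sub', sum_range_sub']
      ring
    linarith
  -- the two Abel sums
  have hB : ∑ k, z (b k) = ℓ * T ℓ + ∑ k ∈ range ℓ, (T k - T (k + 1)) * ((k : ℝ) + 1) := by
    rw [← abel_sum, ← Fin.sum_univ_eq_sum_range]
    exact sum_congr rfl (fun k _ => (hTk k).symm)
  have hW : ∑ j, w j * U j =
      ℓ * T ℓ + ∑ k ∈ range ℓ, (T k - T (k + 1)) * wt f w (flag f b (k + 1)) := by
    simp only [hU, mul_add, sum_add_distrib, mul_sum]
    rw [← sum_mul, hsum, sum_comm]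
    congr 1
    refine sum_congr rfl (fun k _ => ?_)
    rw [wt, mul_sum, sum_filter]
    refine sum_congr rfl (fun j _ => ?_)
    simp only [ha]
    split_ifs <;> ring
  have hterm : ∀ k ∈ range ℓ, ε * (T k - T (k + 1)) ≤
      (T k - T (k + 1)) * (((k : ℝ) + 1) - wt f w (flag f b (k + 1))) := by
    intro k hk
    have hk' := mem_range.mp hk
    by_cases hk1 : k + 1 < ℓ
    · have hfr := finrank_flag f b hb (k + 1) (by omega)
      have hne : flag f b (k + 1) ≠ ⊤ := by
        intro htop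
        rw [htop, finrank_top, Module.finrank_fin_fun] at hfr
        omega
      have hmem : ∃ i, f i ∈ flag f b (k + 1) := by
        refine ⟨b ⟨0, hℓ⟩, ?_⟩
        exact Submodule.subset_span ⟨⟨0, hℓ⟩, by simp, rfl⟩
      have h1 := hst _ hne hmem
      rw [hfr] at h1
      push_cast at h1
      have h2 : 0 ≤ T k - T (k + 1) := sub_nonneg.mpr (hanti k hk')
      nlinarith
    · have : k = ℓ - 1 := by omega
      subst this
      have h2 : ℓ - 1 + 1 = ℓ := by omega
      rw [h2, hTlast]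
      simp
  intro i j
  have hsum1 : ε * (T 0 - T ℓ) ≤
      ∑ k ∈ range ℓ, (T k - T (k + 1)) * (((k : ℝ) + 1) - wt f w (flag f b (k + 1))) := by
    rw [← sum_range_sub' T ℓ, mul_sum]
    exact sum_le_sum hterm
  have hsum2 : ε * (U j - z j) ≤ ∑ j, w j * (U j - z j) := by
    calc ε * (U j - z j) ≤ w j * (U j - z j) :=
          mul_le_mul_of_nonneg_right (hw j) (sub_nonneg.mpr (hUz j))
      _ ≤ _ := single_le_sum (f := fun j => w j * (U j - z j))
          (fun j _ => mul_nonneg (hε.le.trans (hw j)) (sub_nonneg.mpr (hUz j))) (mem_univ j)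
  have hz0 : z i ≤ T 0 := by
    have h1 := hmax ⟨0, hℓ⟩ i (by
      simp only
      rw [flag_zero]
      simpa using hf0 i)
    rw [← hTk] at h1
    exact h1
  have hfin : ∑ k, z (b k) - ∑ i, w i * z i =
      ∑ k ∈ range ℓ, (T k - T (k + 1)) * (((k : ℝ) + 1) - wt f w (flag f b (k + 1))) +
        ∑ j, w j * (U j - z j) := by
    have h1 : ∑ j, w j * (U j - z j) = ∑ j, w j * U j - ∑ j, w j * z j := by
      rw [← sum_sub_distrib]
      exact sum_congr rfl (fun j _ => by ring)
    have h2 : ∑ k ∈ range ℓ, (T k - T (k + 1)) * (((k : ℝ) + 1) - wt f w (flag f b (k + 1))) =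
        ∑ k ∈ range ℓ, (T k - T (k + 1)) * ((k : ℝ) + 1) -
          ∑ k ∈ range ℓ, (T k - T (k + 1)) * wt f w (flag f b (k + 1)) := by
      rw [← sum_sub_distrib]
      exact sum_congr rfl (fun j _ => by ring)
    rw [h1, h2, hB, hW]
    ring
  rw [hfin]
  have h5 := hUT j
  nlinarith

end Pool.Agent.H284_beta
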