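import Mathlib

/-!
# The Aomoto–Betti numbers of a central complex hyperplane arrangement

The arrangement is given by the normal vectors `f i` of its hyperplanes.
-/

set_option autoImplicit false

namespace Pool.Agent.H284_beta

section
variable (K : Type) [Field K] {ℓ n : ℕ}

/-- The product of two elements of degree one in the exterior algebra on `n` generators. -/
noncomputable def wedge (u v : Fin n → K) : ExteriorAlgebra K (Fin n → K) :=
  ExteriorAlgebra.ι K u * ExteriorAlgebra.ι K v

/-- The product `e_i e_j` of two generators of the exterior algebra. -/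
noncomputable def gens (i j : Fin n) : ExteriorAlgebra K (Fin n → K) :=
  wedge K (Pi.single i 1) (Pi.single j 1)

/-- The boundary `e_j e_k - e_i e_k + e_i e_j` of the monomial `e_i e_j e_k`. -/
noncomputable def boundary (i j k : Fin n) : ExteriorAlgebra K (Fin n → K) :=
  gens K j k - gens K i k + gens K i j

/-- The degree two part of the Orlik–Solomon ideal over `K` of the arrangement with normal
vectors `f i`: the span of the boundaries of all linearly dependent triples. -/
noncomputable def osIdealTwo (f : Fin n → (Fin ℓ → ℂ)) :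
    Submodule K (ExteriorAlgebra K (Fin n → K)) :=
  Submodule.span K {x | ∃ i j k : Fin n, i ≠ j ∧ i ≠ k ∧ j ≠ k ∧
    ¬ LinearIndependent ℂ ![f i, f j, f k] ∧ x = boundary K i j k}

/-- `τ` is a cocycle: the product `σ · ∑ τ_i e_i`, where `σ = ∑ e_i`, vanishes in the degree two
part of the Orlik–Solomon algebra over `K`. -/
def IsCocycle (f : Fin n → (Fin ℓ → ℂ)) (τ : Fin n → K) : Prop :=
  wedge K 1 τ ∈ osIdealTwo K f

lemma IsCocycle.add {f : Fin n → (Fin ℓ → ℂ)} {τ τ' : Fin n → K} (h : IsCocycle K f τ)
    (h' : IsCocycle K f τ') : IsCocycle K f (τ + τ') := by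
  unfold IsCocycle wedge at *
  rw [map_add, mul_add]
  exact Submodule.add_mem _ h h'

lemma IsCocycle.zero {f : Fin n → (Fin ℓ → ℂ)} : IsCocycle K f 0 := by
  unfold IsCocycle wedge at *
  rw [map_zero, mul_zero]
  exact Submodule.zero_mem _

lemma IsCocycle.smul {f : Fin n → (Fin ℓ → ℂ)} (c : K) {τ : Fin n → K} (h : IsCocycle K f τ) :
    IsCocycle K f (c • τ) := by
  unfold IsCocycle wedge at *
  rw [map_smul, mul_smul_comm]
  exact Submodule.smul_mem _ _ h

/-- The kernel of multiplication by `σ = ∑ e_i` from degree one to degree two of the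
Orlik–Solomon algebra over `K`. -/
def cocycles (f : Fin n → (Fin ℓ → ℂ)) : Submodule K (Fin n → K) where
  carrier := {τ | IsCocycle K f τ}
  add_mem' := IsCocycle.add K
  zero_mem' := IsCocycle.zero K
  smul_mem' := fun c _ => IsCocycle.smul K c

/-- The Aomoto–Betti number `dim ker (σ · : A^1 → A^2) - 1` over the field `K`. -/
noncomputable def aomotoBetti (f : Fin n → (Fin ℓ → ℂ)) : ℕ :=
  Module.finrank K (cocycles K f) - 1

lemma mem_cocycles {f : Fin n → (Fin ℓ → ℂ)} {τ : Fin n → K} :
    τ ∈ cocycles K f ↔ IsCocycle K f τ := Iff.rfl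

/-- If every cocycle is constant then the Aomoto–Betti number vanishes. -/
lemma aomotoBetti_eq_zero {f : Fin n → (Fin ℓ → ℂ)}
    (hn : 0 < n) (h : ∀ τ, IsCocycle K f τ → ∀ i j, τ i = τ j) : aomotoBetti K f = 0 := by
  have h1 : cocycles K f ≤ Submodule.span K {((fun _ => (1 : K)) : Fin n → K)} := by
    intro τ hτ
    rw [Submodule.mem_span_singleton]
    refine ⟨τ ⟨0, hn⟩, ?_⟩
    funext i
    simp only [Pi.smul_apply, smul_eq_mul, mul_one]
    exact h τ hτ _ _
  have h2 : Module.finrank K (cocycles K f) ≤
      Module.finrank K (Submodule.span K {((fun _ => (1 : K)) : Fin n → K)}) :=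
    Submodule.finrank_mono h1
  have h3 : Module.finrank K (Submodule.span K {((fun _ => (1 : K)) : Fin n → K)}) ≤ 1 := by
    refine (finrank_span_le_card _).trans ?_
    simp
  unfold aomotoBetti
  omega

end

end Pool.Agent.H284_beta
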