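import Mathlib

/-!
# Radial isotropic position, part 1: the matrices `A y = ∑ y i • f i (f i)^*`
-/

set_option autoImplicit false

open Matrix Finset
open scoped ComplexOrder

namespace Pool.Agent.H284_beta

variable {ι : Type*} [Fintype ι] {ℓ : ℕ}

/-- The matrix `∑ y i • f i (f i)^*`. -/
noncomputable def gramSum (f : ι → (Fin ℓ → ℂ)) (y : ι → ℝ) : Matrix (Fin ℓ) (Fin ℓ) ℂ :=
  ∑ i, ((y i : ℝ) : ℂ) • vecMulVec (f i) (star (f i))

/-- The form `v^* A⁻¹ v`, as a real number. -/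
noncomputable def invForm (A : Matrix (Fin ℓ) (Fin ℓ) ℂ) (v : Fin ℓ → ℂ) : ℝ :=
  (star v ⬝ᵥ (A⁻¹ *ᵥ v)).re

lemma posSemidef_smul_vecMulVec (c : ℝ) (hc : 0 ≤ c) (v : Fin ℓ → ℂ) :
    ((c : ℂ) • vecMulVec v (star v)).PosSemidef := by
  have h := posSemidef_vecMulVec_self_star (R := ℂ) v
  exact h.smul (by exact_mod_cast hc)

lemma invForm_eq {A : Matrix (Fin ℓ) (Fin ℓ) ℂ} (hA : A.PosDef) (v : Fin ℓ → ℂ) :
    star v ⬝ᵥ (A⁻¹ *ᵥ v) = (invForm A v : ℂ) := by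
  have h := hA.inv.posSemidef.dotProduct_mulVec_nonneg v
  rw [invForm]
  have h2 := (Complex.nonneg_iff.mp h).2
  apply Complex.ext
  · simp
  · simp [← h2]

lemma invForm_nonneg {A : Matrix (Fin ℓ) (Fin ℓ) ℂ} (hA : A.PosDef) (v : Fin ℓ → ℂ) :
    0 ≤ invForm A v := by
  have h := hA.inv.posSemidef.dotProduct_mulVec_nonneg v
  exact (Complex.nonneg_iff.mp h).1

/-- Rank one update of the determinant. -/
lemma det_add_smul_vecMulVec {A : Matrix (Fin ℓ) (Fin ℓ) ℂ} (hA : A.PosDef) (c : ℂ)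
    (v : Fin ℓ → ℂ) :
    (A + c • vecMulVec v (star v)).det = A.det * (1 + c * (invForm A v : ℂ)) := by
  have hu : IsUnit A.det := (isUnit_iff_isUnit_det A).1 hA.isUnit
  have h1 : c • vecMulVec v (star v) =
      replicateCol Unit (c • v) * replicateRow Unit (star v) := by
    rw [← vecMulVec_eq, smul_vecMulVec]
  rw [h1, det_add_replicateCol_mul_replicateRow hu, ← invForm_eq hA]
  congr 1
  rw [det_unique, Matrix.add_apply, one_apply_eq, Matrix.mul_assoc, ← replicateCol_mulVec,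
    replicateRow_mul_replicateCol_apply, mulVec_smul, dotProduct_smul, smul_eq_mul]

lemma re_det_pos {A : Matrix (Fin ℓ) (Fin ℓ) ℂ} (hA : A.PosDef) : 0 < A.det.re :=
  (Complex.pos_iff.mp hA.det_pos).1

lemma im_det_eq {A : Matrix (Fin ℓ) (Fin ℓ) ℂ} (hA : A.PosDef) : A.det.im = 0 :=
  ((Complex.pos_iff.mp hA.det_pos).2).symm

lemma re_det_add_smul_vecMulVec {A : Matrix (Fin ℓ) (Fin ℓ) ℂ} (hA : A.PosDef) (c : ℝ)
    (v : Fin ℓ → ℂ) :
    (A + (c : ℂ) • vecMulVec v (star v)).det.re = A.det.re * (1 + c * invForm A v) := by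
  rw [det_add_smul_vecMulVec hA]
  simp [im_det_eq hA]

lemma posDef_add_sum {κ : Type*} {A : Matrix (Fin ℓ) (Fin ℓ) ℂ} (hA : A.PosDef)
    (s : Finset κ) (f : κ → (Fin ℓ → ℂ)) (y : κ → ℝ) (hy : ∀ i ∈ s, 0 ≤ y i) :
    (A + ∑ i ∈ s, ((y i : ℝ) : ℂ) • vecMulVec (f i) (star (f i))).PosDef ∧
      A.det.re ≤ (A + ∑ i ∈ s, ((y i : ℝ) : ℂ) • vecMulVec (f i) (star (f i))).det.re := by
  classical
  induction s using Finset.induction_on with
  | empty => simpa using hA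
  | insert a s ha ih =>
    obtain ⟨h1, h2⟩ := ih (fun i hi => hy i (mem_insert_of_mem hi))
    rw [sum_insert ha, add_comm (((y a : ℝ) : ℂ) • _), ← add_assoc]
    refine ⟨h1.add_posSemidef (posSemidef_smul_vecMulVec _ (hy a (mem_insert_self _ _)) _), ?_⟩
    rw [re_det_add_smul_vecMulVec h1]
    have h3 := re_det_pos h1
    have h4 : 0 ≤ y a * invForm (A + ∑ i ∈ s, ((y i : ℝ) : ℂ) • vecMulVec (f i) (star (f i)))
        (f a) := mul_nonneg (hy a (mem_insert_self _ _)) (invForm_nonneg h1 _)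
    nlinarith

end Pool.Agent.H284_beta
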