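import Mathlib
import Pool.Agent.H284_beta.Iso1

/-!
# Radial isotropic position, part 2: positivity and a lower bound for the determinant
-/

set_option autoImplicit false

open Matrix Finset
open scoped ComplexOrder

namespace Pool.Agent.H284_beta

variable {ι : Type*} [Fintype ι] {ℓ : ℕ}

lemma dotProduct_vecMulVec_mulVec (v x : Fin ℓ → ℂ) :
    star x ⬝ᵥ (vecMulVec v (star v) *ᵥ x) = ((‖star v ⬝ᵥ x‖ ^ 2 : ℝ) : ℂ) := by
  rw [vecMulVec_mulVec, dotProduct_smul]
  have h : star x ⬝ᵥ v = star (star v ⬝ᵥ x) := by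
    rw [star_dotProduct]
  rw [h]
  simp only [MulOpposite.smul_eq_mul_unop, MulOpposite.unop_op]
  push_cast
  rw [← Complex.mul_conj', mul_comm, Complex.star_def]

lemma gramSum_posSemidef (f : ι → (Fin ℓ → ℂ)) (y : ι → ℝ) (hy : ∀ i, 0 ≤ y i) :
    (gramSum f y).PosSemidef := by
  rw [gramSum]
  exact posSemidef_sum _ (fun i _ => posSemidef_smul_vecMulVec _ (hy i) _)

lemma gramSum_form (f : ι → (Fin ℓ → ℂ)) (y : ι → ℝ) (x : Fin ℓ → ℂ) :
    star x ⬝ᵥ (gramSum f y *ᵥ x) = ((∑ i, y i * ‖star (f i) ⬝ᵥ x‖ ^ 2 : ℝ) : ℂ) := by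
  rw [gramSum, sum_mulVec, dotProduct_sum]
  push_cast
  refine sum_congr rfl (fun i _ => ?_)
  rw [smul_mulVec, dotProduct_smul, dotProduct_vecMulVec_mulVec]
  push_cast
  rfl

lemma gramSum_posDef (f : ι → (Fin ℓ → ℂ)) (hf : Submodule.span ℂ (Set.range f) = ⊤)
    (y : ι → ℝ) (hy : ∀ i, 0 < y i) : (gramSum f y).PosDef := by
  refine PosDef.of_dotProduct_mulVec_pos (gramSum_posSemidef f y (fun i => (hy i).le)).1
    (fun x hx => ?_)
  rw [gramSum_form]
  have hne : ∃ i, star (f i) ⬝ᵥ x ≠ 0 := by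
    by_contra hcon
    push Not at hcon
    apply hx
    have h1 : ∀ v ∈ Submodule.span ℂ (Set.range f), star v ⬝ᵥ x = 0 := by
      intro v hv
      induction hv using Submodule.span_induction with
      | mem v hv => obtain ⟨i, rfl⟩ := hv; exact hcon i
      | zero => simp
      | add u v _ _ hu hv => rw [star_add, add_dotProduct, hu, hv, add_zero]
      | smul c v _ hv => rw [star_smul, smul_dotProduct, hv, smul_zero]
    have h2 : star x ⬝ᵥ x = 0 := h1 x (by rw [hf]; trivial)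
    exact dotProduct_star_self_eq_zero.mp h2
  obtain ⟨i, hi⟩ := hne
  have : 0 < ∑ i, y i * ‖star (f i) ⬝ᵥ x‖ ^ 2 := by
    refine sum_pos' (fun j _ => mul_nonneg (hy j).le (sq_nonneg _)) ⟨i, mem_univ _, ?_⟩
    exact mul_pos (hy i) (pow_pos (norm_pos_iff.mpr hi) 2)
  exact_mod_cast this

lemma det_gramSum_basis (v : Fin ℓ → (Fin ℓ → ℂ)) (y : Fin ℓ → ℝ) :
    (gramSum v y).det = (((‖(Matrix.of v).det‖ ^ 2 * ∏ k, y k : ℝ)) : ℂ) := by
  have h : gramSum v y = (Matrix.of v)ᵀ * diagonal (fun k => (y k : ℂ)) * ((Matrix.of v)ᵀ)ᴴ := by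
    ext a b
    rw [gramSum, Matrix.sum_apply, Matrix.mul_apply]
    refine sum_congr rfl (fun k _ => ?_)
    simp [vecMulVec_apply]
    ring
  rw [h, det_mul, det_mul, det_transpose, det_diagonal, det_conjTranspose, det_transpose]
  push_cast
  rw [← Complex.mul_conj']
  simp only [Complex.star_def]
  ring

/-- Lower bound for the determinant in terms of one basis. -/
lemma re_det_gramSum_ge [DecidableEq ι] (f : ι → (Fin ℓ → ℂ)) (b : Fin ℓ → ι)
    (hb : LinearIndependent ℂ (f ∘ b)) (y : ι → ℝ) (hy : ∀ i, 0 < y i) :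
    ‖(Matrix.of (f ∘ b)).det‖ ^ 2 * ∏ k, y (b k) ≤ (gramSum f y).det.re := by
  have hinj : Function.Injective b := fun i j hij => hb.injective (by simp [hij])
  have h1 : gramSum f y = gramSum (f ∘ b) (y ∘ b) +
      ∑ i ∈ univ \ (univ.image b), ((y i : ℝ) : ℂ) • vecMulVec (f i) (star (f i)) := by
    rw [gramSum, gramSum, ← sum_sdiff (subset_univ (univ.image b)), add_comm]
    congr 1
    rw [sum_image (fun i _ j _ h => hinj h)]
    rfl
  have hspan : Submodule.span ℂ (Set.range (f ∘ b)) = ⊤ := by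
    apply hb.span_eq_top_of_card_eq_finrank'
    simp
  have hpd : (gramSum (f ∘ b) (y ∘ b)).PosDef :=
    gramSum_posDef _ hspan _ (fun k => hy (b k))
  have h2 := (posDef_add_sum hpd (univ \ (univ.image b)) f y (fun i _ => (hy i).le)).2
  rw [← h1, det_gramSum_basis, Complex.ofReal_re] at h2
  exact h2

lemma norm_det_pos_of_linearIndependent (v : Fin ℓ → (Fin ℓ → ℂ)) (hv : LinearIndependent ℂ v) :
    0 < ‖(Matrix.of v).det‖ ^ 2 := by
  have h : IsUnit (Matrix.of v) := linearIndependent_rows_iff_isUnit.mp hv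
  have h2 : IsUnit (Matrix.of v).det := (isUnit_iff_isUnit_det _).1 h
  exact pow_pos (norm_pos_iff.mpr h2.ne_zero) 2

lemma gramSum_smul (f : ι → (Fin ℓ → ℂ)) (y : ι → ℝ) (c : ℝ) :
    gramSum f (fun i => c * y i) = (c : ℂ) • gramSum f y := by
  rw [gramSum, gramSum, smul_sum]
  refine sum_congr rfl (fun i _ => ?_)
  rw [smul_smul]
  push_cast
  rfl

lemma continuous_gramSum (f : ι → (Fin ℓ → ℂ)) : Continuous (gramSum f) := by
  unfold gramSum
  refine continuous_finsetSum _ (fun i _ => ?_)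
  refine Continuous.smul (f := fun y : ι → ℝ => ((y i : ℝ) : ℂ)) ?_ continuous_const
  exact Complex.continuous_ofReal.comp (continuous_apply i)

lemma gramSum_update [DecidableEq ι] (f : ι → (Fin ℓ → ℂ)) (y : ι → ℝ) (i : ι) (c : ℝ) :
    gramSum f (Function.update y i (y i + c)) =
      gramSum f y + (c : ℂ) • vecMulVec (f i) (star (f i)) := by
  rw [gramSum, gramSum]
  have h : ∀ j, ((Function.update y i (y i + c) j : ℝ) : ℂ) • vecMulVec (f j) (star (f j)) =
      ((y j : ℝ) : ℂ) • vecMulVec (f j) (star (f j)) +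
        (if j = i then (c : ℂ) • vecMulVec (f i) (star (f i)) else 0) := by
    intro j
    by_cases hj : j = i
    · subst hj; simp [add_smul]
    · simp [hj]
  rw [sum_congr rfl (fun j _ => h j), sum_add_distrib]
  simp

end Pool.Agent.H284_beta
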