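import Mathlib
import Pool.Agent.H284_beta.Iso2
import Pool.Agent.H284_beta.Coercive

/-!
# Existence of the radial isotropic position
-/

set_option autoImplicit false

open Matrix Finset Filter Topology
open scoped ComplexOrder

namespace Pool.Agent.H284_beta

variable {ι : Type*} [Fintype ι] {ℓ : ℕ}

/-- The function to be minimised. -/
noncomputable def potential (f : ι → (Fin ℓ → ℂ)) (w : ι → ℝ) (z : ι → ℝ) : ℝ :=
  Real.log (gramSum f (fun i => Real.exp (z i))).det.re - ∑ i, w i * z i

lemma continuous_potential (f : ι → (Fin ℓ → ℂ)) (hf : Submodule.span ℂ (Set.range f) = ⊤)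
    (w : ι → ℝ) : Continuous (potential f w) := by
  unfold potential
  refine Continuous.sub ?_ ?_
  · refine Continuous.log ?_ ?_
    · refine Complex.continuous_re.comp ?_
      refine Continuous.matrix_det ?_
      refine (continuous_gramSum f).comp ?_
      exact continuous_pi (fun i => Real.continuous_exp.comp (continuous_apply i))
    · intro z
      exact (re_det_pos (gramSum_posDef f hf _ (fun i => Real.exp_pos _))).ne'
  · refine continuous_finsetSum _ (fun i _ => ?_)
    exact continuous_const.mul (continuous_apply i)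

lemma potential_shift (f : ι → (Fin ℓ → ℂ)) (hf : Submodule.span ℂ (Set.range f) = ⊤)
    (w : ι → ℝ) (hsum : ∑ i, w i = ℓ) (z : ι → ℝ) (c : ℝ) :
    potential f w (fun i => z i + c) = potential f w z := by
  have hpd := gramSum_posDef f hf (fun i => Real.exp (z i)) (fun i => Real.exp_pos _)
  have h1 : gramSum f (fun i => Real.exp (z i + c)) =
      ((Real.exp c : ℝ) : ℂ) • gramSum f (fun i => Real.exp (z i)) := by
    rw [← gramSum_smul]
    congr 1
    funext i
    rw [Real.exp_add]
    ring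
  rw [potential, potential, h1, det_smul, Fintype.card_fin]
  have h2 : ((((Real.exp c : ℝ) : ℂ)) ^ ℓ * (gramSum f fun i => Real.exp (z i)).det).re =
      (Real.exp c) ^ ℓ * (gramSum f fun i => Real.exp (z i)).det.re := by
    rw [← Complex.ofReal_pow, Complex.re_ofReal_mul]
  rw [h2, Real.log_mul (pow_pos (Real.exp_pos _) _).ne' (re_det_pos hpd).ne', Real.log_pow,
    Real.log_exp]
  have h3 : ∑ i, w i * (z i + c) = ∑ i, w i * z i + ℓ * c := by
    simp only [mul_add, sum_add_distrib, ← sum_mul, hsum]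
  rw [h3]
  ring

lemma potential_lower [DecidableEq ι] (hℓ : 0 < ℓ) (f : ι → (Fin ℓ → ℂ))
    (hf : Submodule.span ℂ (Set.range f) = ⊤)
    (hf0 : ∀ i, f i ≠ 0) (w : ι → ℝ) (ε : ℝ) (hε : 0 < ε) (hw : ∀ i, ε ≤ w i)
    (hsum : ∑ i, w i = ℓ)
    (hst : ∀ W : Submodule ℂ (Fin ℓ → ℂ), W ≠ ⊤ → (∃ i, f i ∈ W) →
      wt f w W + ε ≤ Module.finrank ℂ W) :
    ∃ C : ℝ, ∀ z : ι → ℝ, ∀ i j, ε * (z i - z j) - C ≤ potential f w z := by
  classical
  -- a uniform lower bound for the determinants of bases
  obtain ⟨C, hC⟩ : ∃ C : ℝ, ∀ b : Fin ℓ → ι, LinearIndependent ℂ (f ∘ b) →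
      -C ≤ Real.log (‖(Matrix.of (f ∘ b)).det‖ ^ 2) := by
    have hfin : Set.Finite (Set.range (fun b : Fin ℓ → ι =>
        - Real.log (‖(Matrix.of (f ∘ b)).det‖ ^ 2))) := Set.finite_range _
    obtain ⟨C, hC⟩ := hfin.bddAbove
    exact ⟨C, fun b _ => by have := hC ⟨b, rfl⟩; simp only at this; linarith⟩
  refine ⟨C, fun z i j => ?_⟩
  obtain ⟨b, hb, hco⟩ := coercive hℓ f hf hf0 w ε hε hw hsum hst z
  have h1 := re_det_gramSum_ge f b hb (fun i => Real.exp (z i)) (fun i => Real.exp_pos _)
  have h2 : Real.log (‖(Matrix.of (f ∘ b)).det‖ ^ 2 * ∏ k, Real.exp (z (b k))) ≤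
      Real.log (gramSum f (fun i => Real.exp (z i))).det.re := by
    apply Real.log_le_log _ h1
    exact mul_pos (norm_det_pos_of_linearIndependent _ hb)
      (prod_pos (fun k _ => Real.exp_pos _))
  rw [Real.log_mul (norm_det_pos_of_linearIndependent _ hb).ne'
    (prod_pos (fun k _ => Real.exp_pos _)).ne', ← Real.exp_sum, Real.log_exp] at h2
  have h3 := hC b hb
  have h4 := hco i j
  rw [potential]
  linarith

lemma exists_min [DecidableEq ι] (hℓ : 0 < ℓ) (f : ι → (Fin ℓ → ℂ))
    (hf : Submodule.span ℂ (Set.range f) = ⊤)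
    (hf0 : ∀ i, f i ≠ 0) (w : ι → ℝ) (ε : ℝ) (hε : 0 < ε) (hw : ∀ i, ε ≤ w i)
    (hsum : ∑ i, w i = ℓ)
    (hst : ∀ W : Submodule ℂ (Fin ℓ → ℂ), W ≠ ⊤ → (∃ i, f i ∈ W) →
      wt f w W + ε ≤ Module.finrank ℂ W) :
    ∃ z : ι → ℝ, ∀ z' : ι → ℝ, potential f w z ≤ potential f w z' := by
  classical
  obtain ⟨C, hC⟩ := potential_lower hℓ f hf hf0 w ε hε hw hsum hst
  have hne : Nonempty ι := by
    by_contra hcon
    rw [not_nonempty_iff] at hcon
    rw [sum_of_isEmpty] at hsum
    have : (ℓ : ℝ) ≠ 0 := by exact_mod_cast hℓ.ne'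
    exact this hsum.symm
  obtain ⟨i0⟩ := hne
  set Φ : (ι → ℝ) → ℝ := fun z => potential f w z + (z i0) ^ 2 with hΦ
  have hcont : Continuous Φ :=
    (continuous_potential f hf w).add ((continuous_apply i0).pow 2)
  have hlarge : ∀ᶠ z in cocompact (ι → ℝ), Φ 0 ≤ Φ z := by
    have hK : IsCompact (Metric.closedBall (0 : ι → ℝ) (2 * (|C + Φ 0| / ε + |C + Φ 0| + 1))) :=
      isCompact_closedBall _ _
    filter_upwards [hK.compl_mem_cocompact] with z hz
    simp only [Set.mem_compl_iff, Metric.mem_closedBall, dist_zero_right, not_le] at hz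
    set R : ℝ := |C + Φ 0| / ε + |C + Φ 0| + 1 with hR
    have hRpos : 0 < R := by positivity
    obtain ⟨j, hj⟩ : ∃ j, 2 * R < |z j| := by
      by_contra hcon
      push Not at hcon
      have : ‖z‖ ≤ 2 * R := (pi_norm_le_iff_of_nonneg (by positivity)).mpr (fun j => by
        rw [Real.norm_eq_abs]; exact hcon j)
      linarith
    have hcase : R < |z i0| ∨ R < |z j - z i0| := by
      by_contra hcon
      push Not at hcon
      have h1 : |z j| ≤ |z j - z i0| + |z i0| := by
        have := abs_add_le (z j - z i0) (z i0)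
        simpa using this
      linarith [hcon.1, hcon.2]
    have hCabs : C + Φ 0 ≤ |C + Φ 0| := le_abs_self _
    have hC' : ∀ i j, ε * |z i - z j| - C ≤ potential f w z := by
      intro i j
      rcases abs_cases (z i - z j) with ⟨h, _⟩ | ⟨h, _⟩
      · rw [h]; exact hC z i j
      · rw [h]
        have := hC z j i
        linarith
    simp only [hΦ] at *
    rcases hcase with h | h
    · have h1 := hC' i0 i0
      simp only [sub_self, abs_zero, mul_zero, zero_sub] at h1
      have h2 : R ≤ (z i0) ^ 2 := by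
        have h3 : 1 ≤ R := by
          have : 0 ≤ |C + (potential f w 0 + (0 : ι → ℝ) i0 ^ 2)| / ε := by positivity
          have h4 := abs_nonneg (C + (potential f w 0 + (0 : ι → ℝ) i0 ^ 2))
          linarith
        rw [← sq_abs]
        nlinarith
      have h5 : |C + (potential f w 0 + (0 : ι → ℝ) i0 ^ 2)| ≤ R := by
        have : 0 ≤ |C + (potential f w 0 + (0 : ι → ℝ) i0 ^ 2)| / ε := by positivity
        linarith
      linarith
    · have h1 := hC' j i0
      have h2 : |C + (potential f w 0 + (0 : ι → ℝ) i0 ^ 2)| ≤ ε * R := by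
        have h3 : ε * (|C + (potential f w 0 + (0 : ι → ℝ) i0 ^ 2)| / ε) =
            |C + (potential f w 0 + (0 : ι → ℝ) i0 ^ 2)| := by
          field_simp
        have h4 : 0 ≤ ε * (|C + (potential f w 0 + (0 : ι → ℝ) i0 ^ 2)| + 1) := by positivity
        calc |C + (potential f w 0 + (0 : ι → ℝ) i0 ^ 2)| =
              ε * (|C + (potential f w 0 + (0 : ι → ℝ) i0 ^ 2)| / ε) := h3.symm
          _ ≤ ε * R := by
              rw [hR]
              nlinarith
      have h6 : ε * R ≤ ε * |z j - z i0| := mul_le_mul_of_nonneg_left h.le hε.le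
      have h7 : 0 ≤ (z i0) ^ 2 := sq_nonneg _
      linarith
  obtain ⟨z, hz⟩ := hcont.exists_forall_le' 0 hlarge
  refine ⟨z, fun z' => ?_⟩
  have h1 := hz (fun i => z' i + (- z' i0))
  simp only [hΦ] at h1
  rw [potential_shift f hf w hsum z' (- z' i0)] at h1
  have h2 : 0 ≤ (z i0) ^ 2 := sq_nonneg _
  have h3 : (z' i0 + -z' i0) ^ 2 = 0 := by ring
  rw [h3] at h1
  linarith

/-- **Radial isotropic position.** -/
theorem exists_isotropic [DecidableEq ι] (hℓ : 0 < ℓ) (f : ι → (Fin ℓ → ℂ))
    (hf : Submodule.span ℂ (Set.range f) = ⊤)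
    (hf0 : ∀ i, f i ≠ 0) (w : ι → ℝ) (ε : ℝ) (hε : 0 < ε) (hw : ∀ i, ε ≤ w i)
    (hsum : ∑ i, w i = ℓ)
    (hst : ∀ W : Submodule ℂ (Fin ℓ → ℂ), W ≠ ⊤ → (∃ i, f i ∈ W) →
      wt f w W + ε ≤ Module.finrank ℂ W) :
    ∃ y : ι → ℝ, (∀ i, 0 < y i) ∧ ∀ i, y i * invForm (gramSum f y) (f i) = w i := by
  classical
  obtain ⟨z, hz⟩ := exists_min hℓ f hf hf0 w ε hε hw hsum hst
  refine ⟨fun i => Real.exp (z i), fun i => Real.exp_pos _, fun i => ?_⟩
  set y : ι → ℝ := fun i => Real.exp (z i) with hy
  have hpd := gramSum_posDef f hf y (fun i => Real.exp_pos _)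
  set ρ := y i * invForm (gramSum f y) (f i) with hρ
  have hρ0 : 0 ≤ ρ := mul_nonneg (Real.exp_pos _).le (invForm_nonneg hpd _)
  have hkey : ∀ δ : ℝ, 0 < 1 + (Real.exp δ - 1) * ρ ∧
      w i * δ ≤ Real.log (1 + (Real.exp δ - 1) * ρ) := by
    intro δ
    have h1 := hz (Function.update z i (z i + δ))
    have h2 : (fun j => Real.exp (Function.update z i (z i + δ) j)) =
        Function.update y i (y i + (Real.exp δ - 1) * y i) := by
      funext j
      by_cases hj : j = i
      · subst hj
        simp only [Function.update_self, hy]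
        rw [Real.exp_add]
        ring
      · simp [hj, hy]
    have h3 : (gramSum f (Function.update y i (y i + (Real.exp δ - 1) * y i))).PosDef := by
      apply gramSum_posDef f hf
      intro j
      rw [← h2]
      exact Real.exp_pos _
    have h4 : (gramSum f (Function.update y i (y i + (Real.exp δ - 1) * y i))).det.re =
        (gramSum f y).det.re * (1 + (Real.exp δ - 1) * ρ) := by
      rw [gramSum_update, re_det_add_smul_vecMulVec hpd]
      rw [hρ]
      ring
    have h5 : 0 < 1 + (Real.exp δ - 1) * ρ := by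
      have h6 := re_det_pos h3
      rw [h4] at h6
      exact (mul_pos_iff_of_pos_left (re_det_pos hpd)).mp h6
    refine ⟨h5, ?_⟩
    have h7 : ∑ j, w j * Function.update z i (z i + δ) j = ∑ j, w j * z j + w i * δ := by
      have : ∀ j, w j * Function.update z i (z i + δ) j =
          w j * z j + (if j = i then w i * δ else 0) := by
        intro j
        by_cases hj : j = i
        · subst hj; simp; ring
        · simp [hj]
      rw [sum_congr rfl (fun j _ => this j), sum_add_distrib]
      simp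
    rw [potential, potential, h2, h4, h7,
      Real.log_mul (re_det_pos hpd).ne' h5.ne'] at h1
    linarith
  -- derivative at zero
  have hder : HasDerivAt (fun δ : ℝ => Real.log (1 + (Real.exp δ - 1) * ρ) - w i * δ)
      (ρ - w i) 0 := by
    have h1 : HasDerivAt (fun δ : ℝ => 1 + (Real.exp δ - 1) * ρ) (Real.exp 0 * ρ) 0 := by
      have := ((Real.hasDerivAt_exp 0).sub_const 1).mul_const ρ
      exact this.const_add 1
    have h2 := h1.log (by simp)
    have h3 : HasDerivAt (fun δ : ℝ => w i * δ) (w i) 0 := by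
      simpa using (hasDerivAt_id (0 : ℝ)).const_mul (w i)
    have h4 : HasDerivAt (fun δ : ℝ => Real.log (1 + (Real.exp δ - 1) * ρ) - w i * δ)
        (Real.exp 0 * ρ / (1 + (Real.exp 0 - 1) * ρ) - w i) 0 := h2.sub h3
    have h5 : Real.exp 0 * ρ / (1 + (Real.exp 0 - 1) * ρ) - w i = ρ - w i := by simp
    rwa [h5] at h4
  have hmin : IsLocalMin (fun δ : ℝ => Real.log (1 + (Real.exp δ - 1) * ρ) - w i * δ) 0 := by
    refine Filter.Eventually.of_forall (fun δ => ?_)
    have := (hkey δ).2
    simp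
    linarith
  have := hmin.hasDerivAt_eq_zero hder
  linarith

end Pool.Agent.H284_beta
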