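import Mathlib
import Pool.Agent.H284_beta.Exists

/-!
# The isotropic frame and the trace inequality
-/

set_option autoImplicit false

open Matrix Finset Filter Topology
open scoped ComplexOrder InnerProductSpace

namespace Pool.Agent.H284_beta

/-- The trace inequality `(tr N)^2 ≤ r tr(N^2)` for `N = ∑ c i • g i (g i)^*` supported on a
subspace of dimension `r`. -/
lemma trace_ineq {E : Type*} [NormedAddCommGroup E] [InnerProductSpace ℂ E] {κ : Type*}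
    (s : Finset κ) (g : κ → E) (c : κ → ℝ) (W : Submodule ℂ E) [FiniteDimensional ℂ W]
    (hg : ∀ i ∈ s, g i ∈ W) :
    (∑ i ∈ s, c i * ‖g i‖ ^ 2) ^ 2 ≤
      Module.finrank ℂ W * ∑ i ∈ s, ∑ j ∈ s, c i * c j * ‖⟪g i, g j⟫_ℂ‖ ^ 2 := by
  classical
  set e := stdOrthonormalBasis ℂ W with he
  -- coordinates
  have hsum : ∀ i ∈ s, ∀ j ∈ s,
      ∑ a, ⟪g i, (e a : E)⟫_ℂ * ⟪(e a : E), g j⟫_ℂ = ⟪g i, g j⟫_ℂ := by
    intro i hi j hj
    have h := e.sum_inner_mul_inner (⟨g i, hg i hi⟩ : W) (⟨g j, hg j hj⟩ : W)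
    simpa using h
  have hnorm : ∀ i ∈ s, ∑ a, ‖⟪(e a : E), g i⟫_ℂ‖ ^ 2 = ‖g i‖ ^ 2 := by
    intro i hi
    have h := e.sum_sq_norm_inner_right (⟨g i, hg i hi⟩ : W)
    simpa using h
  set N : Fin (Module.finrank ℂ W) → Fin (Module.finrank ℂ W) → ℂ := fun a b =>
    ∑ i ∈ s, (c i : ℂ) * (⟪(e a : E), g i⟫_ℂ * ⟪g i, (e b : E)⟫_ℂ) with hN
  have h1 : ∑ i ∈ s, c i * ‖g i‖ ^ 2 = ∑ a, (∑ i ∈ s, c i * ‖⟪(e a : E), g i⟫_ℂ‖ ^ 2) := by
    rw [sum_comm]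
    refine sum_congr rfl (fun i hi => ?_)
    rw [← mul_sum, hnorm i hi]
  have h2 : ∀ a, ‖N a a‖ ^ 2 = (∑ i ∈ s, c i * ‖⟪(e a : E), g i⟫_ℂ‖ ^ 2) ^ 2 := by
    intro a
    have : N a a = ((∑ i ∈ s, c i * ‖⟪(e a : E), g i⟫_ℂ‖ ^ 2 : ℝ) : ℂ) := by
      simp only [hN]
      push_cast
      refine sum_congr rfl (fun i _ => ?_)
      congr 1
      rw [← inner_conj_symm (g i) (e a : E), Complex.mul_conj']
    rw [this, Complex.norm_real, Real.norm_eq_abs, sq_abs]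
  have h3 : ∑ a, ∑ b, ‖N a b‖ ^ 2 =
      ∑ i ∈ s, ∑ j ∈ s, c i * c j * ‖⟪g i, g j⟫_ℂ‖ ^ 2 := by
    have h4 : ((∑ a, ∑ b, ‖N a b‖ ^ 2 : ℝ) : ℂ) =
        ((∑ i ∈ s, ∑ j ∈ s, c i * c j * ‖⟪g i, g j⟫_ℂ‖ ^ 2 : ℝ) : ℂ) := by
      push_cast
      simp_rw [← Complex.mul_conj']
      simp only [hN, map_sum, map_mul, Complex.conj_ofReal, inner_conj_symm]
      simp_rw [sum_mul_sum]
      -- move the sums over `a` and `b` inside
      calc ∑ a, ∑ b, ∑ i ∈ s, ∑ j ∈ s,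
            (c i : ℂ) * (⟪(e a : E), g i⟫_ℂ * ⟪g i, (e b : E)⟫_ℂ) *
              ((c j : ℂ) * (⟪g j, (e a : E)⟫_ℂ * ⟪(e b : E), g j⟫_ℂ))
          = ∑ i ∈ s, ∑ j ∈ s, ∑ a, ∑ b,
            (c i : ℂ) * (⟪(e a : E), g i⟫_ℂ * ⟪g i, (e b : E)⟫_ℂ) *
              ((c j : ℂ) * (⟪g j, (e a : E)⟫_ℂ * ⟪(e b : E), g j⟫_ℂ)) := by
            calc _ = ∑ a, ∑ i ∈ s, ∑ j ∈ s, ∑ b,
                  (c i : ℂ) * (⟪(e a : E), g i⟫_ℂ * ⟪g i, (e b : E)⟫_ℂ) *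
                    ((c j : ℂ) * (⟪g j, (e a : E)⟫_ℂ * ⟪(e b : E), g j⟫_ℂ)) := by
                  refine sum_congr rfl (fun a _ => ?_)
                  rw [sum_comm]
                  refine sum_congr rfl (fun i _ => ?_)
                  rw [sum_comm]
              _ = _ := by
                  rw [sum_comm]
                  refine sum_congr rfl (fun i _ => ?_)
                  rw [sum_comm]
        _ = ∑ i ∈ s, ∑ j ∈ s, (c i : ℂ) * (c j : ℂ) * (⟪g i, g j⟫_ℂ * ⟪g j, g i⟫_ℂ) := by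
            refine sum_congr rfl (fun i hi => sum_congr rfl (fun j hj => ?_))
            rw [← hsum i hi j hj, ← hsum j hj i hi, sum_mul_sum, mul_sum, sum_comm]
            refine sum_congr rfl (fun a _ => ?_)
            rw [mul_sum]
            refine sum_congr rfl (fun b _ => ?_)
            ring
    exact_mod_cast h4
  calc (∑ i ∈ s, c i * ‖g i‖ ^ 2) ^ 2
      = (∑ a, (∑ i ∈ s, c i * ‖⟪(e a : E), g i⟫_ℂ‖ ^ 2)) ^ 2 := by rw [h1]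
    _ ≤ (univ : Finset (Fin (Module.finrank ℂ W))).card *
          ∑ a, (∑ i ∈ s, c i * ‖⟪(e a : E), g i⟫_ℂ‖ ^ 2) ^ 2 := sq_sum_le_card_mul_sum_sq
    _ = Module.finrank ℂ W * ∑ a, ‖N a a‖ ^ 2 := by
        rw [card_univ, Fintype.card_fin]
        congr 1
        exact sum_congr rfl (fun a _ => (h2 a).symm)
    _ ≤ Module.finrank ℂ W * ∑ a, ∑ b, ‖N a b‖ ^ 2 := by
        apply mul_le_mul_of_nonneg_left _ (Nat.cast_nonneg _)
        refine sum_le_sum (fun a _ => ?_)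
        exact single_le_sum (f := fun b => ‖N a b‖ ^ 2) (fun b _ => sq_nonneg _) (mem_univ a)
    _ = _ := by rw [h3]

variable {ι : Type*} [Fintype ι] {ℓ : ℕ}

open scoped MatrixOrder in
/-- A positive definite matrix has an inverse of the form `B^* B`. -/
lemma exists_factor {A : Matrix (Fin ℓ) (Fin ℓ) ℂ} (hA : A.PosDef) :
    ∃ B : Matrix (Fin ℓ) (Fin ℓ) ℂ, A⁻¹ = Bᴴ * B := by
  obtain ⟨B, hB⟩ := CStarAlgebra.nonneg_iff_eq_star_mul_self.mp hA.inv.posSemidef.nonneg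
  exact ⟨B, hB⟩

lemma inner_toLp (B : Matrix (Fin ℓ) (Fin ℓ) ℂ) (a b : ℝ) (u v : Fin ℓ → ℂ) :
    ⟪(WithLp.toLp 2 ((a : ℂ) • (B *ᵥ u)) : EuclideanSpace ℂ (Fin ℓ)),
      (WithLp.toLp 2 ((b : ℂ) • (B *ᵥ v)) : EuclideanSpace ℂ (Fin ℓ))⟫_ℂ =
      ((a * b : ℝ) : ℂ) * (star u ⬝ᵥ ((Bᴴ * B) *ᵥ v)) := by
  rw [EuclideanSpace.inner_eq_star_dotProduct]
  simp only [star_smul, dotProduct_smul, smul_dotProduct, smul_eq_mul]
  rw [← mulVec_mulVec, dotProduct_mulVec (star u), vecMul_conjTranspose, star_star,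
    dotProduct_comm]
  simp only [Complex.star_def, Complex.conj_ofReal]
  push_cast
  ring

/-- **The isotropic frame**: unit vectors in radial isotropic position, rescaled so that
`‖g i‖ ^ 2 = w i`. -/
theorem exists_frame [DecidableEq ι] (hℓ : 0 < ℓ) (f : ι → (Fin ℓ → ℂ))
    (hf : Submodule.span ℂ (Set.range f) = ⊤)
    (hf0 : ∀ i, f i ≠ 0) (w : ι → ℝ) (ε : ℝ) (hε : 0 < ε) (hw : ∀ i, ε ≤ w i)
    (hsum : ∑ i, w i = ℓ)
    (hst : ∀ W : Submodule ℂ (Fin ℓ → ℂ), W ≠ ⊤ → (∃ i, f i ∈ W) →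
      wt f w W + ε ≤ Module.finrank ℂ W) :
    ∃ g : ι → EuclideanSpace ℂ (Fin ℓ), (∀ i, ‖g i‖ ^ 2 = w i) ∧
      (∀ i, ∑ j, ‖⟪g i, g j⟫_ℂ‖ ^ 2 = w i) ∧
      ∀ (s : Finset ι) (W : Submodule ℂ (Fin ℓ → ℂ)), (∀ i ∈ s, f i ∈ W) →
        ∃ W' : Submodule ℂ (EuclideanSpace ℂ (Fin ℓ)),
          Module.finrank ℂ W' ≤ Module.finrank ℂ W ∧ ∀ i ∈ s, g i ∈ W' := by
  obtain ⟨y, hy, hyw⟩ := exists_isotropic hℓ f hf hf0 w ε hε hw hsum hst
  have hpd := gramSum_posDef f hf y hy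
  obtain ⟨B, hB⟩ := exists_factor hpd
  set g : ι → EuclideanSpace ℂ (Fin ℓ) := fun i =>
    WithLp.toLp 2 (((Real.sqrt (y i) : ℝ) : ℂ) • (B *ᵥ f i)) with hg
  have hinner : ∀ i j, ⟪g i, g j⟫_ℂ = ((Real.sqrt (y i) * Real.sqrt (y j) : ℝ) : ℂ) *
      (star (f i) ⬝ᵥ ((gramSum f y)⁻¹ *ᵥ f j)) := by
    intro i j
    rw [hB]
    exact inner_toLp B _ _ _ _
  have hnorm : ∀ i, ‖g i‖ ^ 2 = w i := by
    intro i
    have h1 : ((‖g i‖ ^ 2 : ℝ) : ℂ) = ⟪g i, g i⟫_ℂ := by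
      rw [inner_self_eq_norm_sq_to_K]
      push_cast
      rfl
    rw [hinner, invForm_eq hpd, Real.mul_self_sqrt (hy i).le] at h1
    have h2 : ‖g i‖ ^ 2 = y i * invForm (gramSum f y) (f i) := by exact_mod_cast h1
    rw [h2, hyw]
  refine ⟨g, hnorm, fun i => ?_, fun s W hW => ?_⟩
  · -- the Parseval identity
    have hu : IsUnit (gramSum f y).det := (isUnit_iff_isUnit_det _).1 hpd.isUnit
    have h1 := gramSum_form f y ((gramSum f y)⁻¹ *ᵥ f i)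
    rw [mulVec_mulVec, mul_nonsing_inv _ hu, one_mulVec] at h1
    have h2 : star ((gramSum f y)⁻¹ *ᵥ f i) ⬝ᵥ f i =
        star (star (f i) ⬝ᵥ ((gramSum f y)⁻¹ *ᵥ f i)) := by
      rw [star_dotProduct]
    rw [h2, invForm_eq hpd] at h1
    have h3 : invForm (gramSum f y) (f i) =
        ∑ j, y j * ‖star (f j) ⬝ᵥ ((gramSum f y)⁻¹ *ᵥ f i)‖ ^ 2 := by
      have h4 : star ((invForm (gramSum f y) (f i) : ℝ) : ℂ) =
          ((invForm (gramSum f y) (f i) : ℝ) : ℂ) := by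
        rw [Complex.star_def, Complex.conj_ofReal]
      rw [h4] at h1
      exact_mod_cast h1
    calc ∑ j, ‖⟪g i, g j⟫_ℂ‖ ^ 2 = ∑ j, y i * (y j *
          ‖star (f j) ⬝ᵥ ((gramSum f y)⁻¹ *ᵥ f i)‖ ^ 2) := by
          refine sum_congr rfl (fun j _ => ?_)
          rw [norm_inner_symm, hinner, norm_mul, Complex.norm_real, Real.norm_eq_abs, mul_pow,
            sq_abs, mul_pow, Real.sq_sqrt (hy j).le, Real.sq_sqrt (hy i).le]
          ring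
      _ = y i * invForm (gramSum f y) (f i) := by rw [← mul_sum, ← h3]
      _ = w i := hyw i
  · let L : (Fin ℓ → ℂ) →ₗ[ℂ] EuclideanSpace ℂ (Fin ℓ) :=
      (WithLp.linearEquiv 2 ℂ (Fin ℓ → ℂ)).symm.toLinearMap ∘ₗ B.mulVecLin
    refine ⟨W.map L, Submodule.finrank_map_le _ _, fun i hi => ?_⟩
    have h1 : g i = ((Real.sqrt (y i) : ℝ) : ℂ) • L (f i) := by
      simp only [hg, L]
      rfl
    rw [h1]
    exact Submodule.smul_mem _ _ (Submodule.mem_map_of_mem (hW i hi))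

end Pool.Agent.H284_beta
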