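import Mathlib
import Pool.Agent.H284_beta.Frame
import Pool.Agent.H284_beta.Cases

/-!
# Linear spaces of vectors
-/

set_option autoImplicit false

open Finset
open scoped InnerProductSpace

namespace Pool.Agent.H284_beta

variable {ι : Type*} [Fintype ι] {ℓ : ℕ}

open Classical in
/-- The rank two flat spanned by `f i` and `f j`. -/
noncomputable def vecLine (f : ι → (Fin ℓ → ℂ)) (i j : ι) : Finset ι :=
  univ.filter (fun k => f k ∈ Submodule.span ℂ ({f i, f j} : Set (Fin ℓ → ℂ)))

lemma mem_vecLine {f : ι → (Fin ℓ → ℂ)} {i j k : ι} :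
    k ∈ vecLine f i j ↔ f k ∈ Submodule.span ℂ ({f i, f j} : Set (Fin ℓ → ℂ)) := by
  simp [vecLine]

lemma finrank_span_pair {u v : Fin ℓ → ℂ} (h : LinearIndependent ℂ ![u, v]) :
    Module.finrank ℂ (Submodule.span ℂ ({u, v} : Set (Fin ℓ → ℂ))) = 2 := by
  have h1 := finrank_span_eq_card h
  have h2 : Set.range ![u, v] = {u, v} := by
    rw [Matrix.range_cons, Matrix.range_cons, Matrix.range_empty]
    ext x
    simp only [Set.union_empty, Set.mem_union, Set.mem_singleton_iff, Set.mem_insert_iff]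
  rw [h2] at h1
  simpa using h1

lemma span_pair_eq {u v x y : Fin ℓ → ℂ} (h : LinearIndependent ℂ ![u, v])
    (h' : LinearIndependent ℂ ![x, y]) (hx : x ∈ Submodule.span ℂ ({u, v} : Set (Fin ℓ → ℂ)))
    (hy : y ∈ Submodule.span ℂ ({u, v} : Set (Fin ℓ → ℂ))) :
    Submodule.span ℂ ({x, y} : Set (Fin ℓ → ℂ)) = Submodule.span ℂ {u, v} := by
  apply Submodule.eq_of_le_of_finrank_eq
  · rw [Submodule.span_le]
    intro z hz
    simp only [Set.mem_insert_iff, Set.mem_singleton_iff] at hz
    rcases hz with rfl | rfl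
    · exact hx
    · exact hy
  · rw [finrank_span_pair h, finrank_span_pair h']

lemma isLinSp_vecLine (f : ι → (Fin ℓ → ℂ))
    (hf : ∀ i j, i ≠ j → LinearIndependent ℂ ![f i, f j]) : IsLinSp (vecLine f) where
  left_mem i j _ := mem_vecLine.mpr (Submodule.subset_span (by simp))
  right_mem i j _ := mem_vecLine.mpr (Submodule.subset_span (by simp))
  eq_of_mem i j k l hij hkl hk hl := by
    have h := span_pair_eq (hf i j hij) (hf k l hkl) (mem_vecLine.mp hk) (mem_vecLine.mp hl)
    unfold vecLine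
    rw [h]

lemma exists_eps (f : ι → (Fin ℓ → ℂ)) (w : ι → ℝ) (hpos : ∀ i, 0 < w i)
    (hst : ∀ W : Submodule ℂ (Fin ℓ → ℂ), W ≠ ⊤ → (∃ i, f i ∈ W) →
      wt f w W < Module.finrank ℂ W) :
    ∃ ε : ℝ, 0 < ε ∧ (∀ i, ε ≤ w i) ∧
      ∀ W : Submodule ℂ (Fin ℓ → ℂ), W ≠ ⊤ → (∃ i, f i ∈ W) →
        wt f w W + ε ≤ Module.finrank ℂ W := by
  classical
  obtain ⟨ε1, h1, h1'⟩ := Pi.exists_forall_pos_add_lt (x := fun _ : ι => (0 : ℝ)) (y := w)
    (fun i => hpos i)
  obtain ⟨ε2, h2, h2'⟩ := Pi.exists_forall_pos_add_lt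
    (ι := {x : Finset ι × Fin (ℓ + 1) // ∑ i ∈ x.1, w i < ((x.2 : ℕ) : ℝ)})
    (x := fun x => ∑ i ∈ x.1.1, w i) (y := fun x => ((x.1.2 : ℕ) : ℝ)) (fun x => x.2)
  refine ⟨min ε1 ε2, lt_min h1 h2, fun i => ?_, fun W hW hi => ?_⟩
  · have := h1' i
    simp only [zero_add] at this
    exact (min_le_left _ _).trans this.le
  · have h3 := hst W hW hi
    have h4 : Module.finrank ℂ W < ℓ + 1 := by
      have := Submodule.finrank_le W
      rw [Module.finrank_fin_fun] at this
      omega
    have h5 := h2' ⟨(univ.filter (fun i => f i ∈ W), ⟨Module.finrank ℂ W, h4⟩), h3⟩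
    simp only at h5
    have h6 : wt f w W = ∑ i ∈ univ.filter (fun i => f i ∈ W), w i := by
      unfold wt
      rfl
    rw [h6]
    linarith [min_le_right ε1 ε2]

/-- The weighted inequality for vectors in radial isotropic position. -/
theorem vec_ineq [DecidableEq ι] (hℓ : 0 < ℓ) (f : ι → (Fin ℓ → ℂ))
    (hf : ∀ i j, i ≠ j → LinearIndependent ℂ ![f i, f j])
    (hspan : Submodule.span ℂ (Set.range f) = ⊤)
    (hf0 : ∀ i, f i ≠ 0) (w : ι → ℝ) (hpos : ∀ i, 0 < w i)
    (hsum : ∑ i, w i = ℓ)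
    (hst : ∀ W : Submodule ℂ (Fin ℓ → ℂ), W ≠ ⊤ → (∃ i, f i ∈ W) →
      wt f w W < Module.finrank ℂ W) :
    ∀ P ⊆ lines (vecLine f),
      ∑ X ∈ P, ((∑ i ∈ X, w i) ^ 2 / 2 - ∑ i ∈ X, w i ^ 2) ≤ ℓ - ∑ i, w i ^ 2 := by
  obtain ⟨ε, hε, hw, hst'⟩ := exists_eps f w hpos hst
  obtain ⟨g, hg1, hg2, hg3⟩ := exists_frame hℓ f hspan hf0 w ε hε hw hsum hst'
  intro P hP
  refine (isLinSp_vecLine f hf).weighted_ineq hP w ℓ hsum (fun i j => ‖⟪g i, g j⟫_ℂ‖ ^ 2)
    (fun i j => sq_nonneg _) (fun i => ?_) hg2 (fun X hX => ?_)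
  · have h1 : ‖⟪g i, g i⟫_ℂ‖ = ‖g i‖ ^ 2 := by
      rw [inner_self_eq_norm_sq_to_K]
      simp
    rw [h1, hg1]
  · obtain ⟨i, j, hij, rfl⟩ := mem_lines.mp (hP hX)
    obtain ⟨W', hW', hgW⟩ := hg3 (vecLine f i j)
      (Submodule.span ℂ ({f i, f j} : Set (Fin ℓ → ℂ))) (fun k hk => mem_vecLine.mp hk)
    rw [finrank_span_pair (hf i j hij)] at hW'
    have h1 := trace_ineq (vecLine f i j) g (fun _ => 1) W' hgW
    simp only [one_mul, mul_one, hg1] at h1
    refine h1.trans ?_
    have h2 : (Module.finrank ℂ W' : ℝ) ≤ 2 := by exact_mod_cast hW'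
    exact mul_le_mul_of_nonneg_right h2
      (sum_nonneg (fun i _ => sum_nonneg (fun j _ => sq_nonneg _)))

/-- The set of indices of vectors in a subspace is closed. -/
lemma closed_of_submodule [DecidableEq ι] (f : ι → (Fin ℓ → ℂ))
    (W : Submodule ℂ (Fin ℓ → ℂ)) [DecidablePred (fun i => f i ∈ W)] :
    ClosedUnder (vecLine f) (univ.filter (fun i => f i ∈ W)) := by
  intro i hi j hj _ k hk
  simp only [mem_filter, mem_univ, true_and] at hi hj ⊢
  have h1 := mem_vecLine.mp hk
  refine Submodule.span_le.mpr ?_ h1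
  intro z hz
  simp only [Set.mem_insert_iff, Set.mem_singleton_iff] at hz
  rcases hz with rfl | rfl
  · exact hi
  · exact hj

theorem ineq3_vec [DecidableEq ι] (f : ι → (Fin 3 → ℂ))
    (hf : ∀ i j, i ≠ j → LinearIndependent ℂ ![f i, f j])
    (hspan : Submodule.span ℂ (Set.range f) = ⊤)
    (hf0 : ∀ i, f i ≠ 0) : Ineq3 (vecLine f) := by
  classical
  intro w hpos hlt hsum hclosed P hP
  have := vec_ineq (by norm_num) f hf hspan hf0 w hpos (by rw [hsum]; norm_num) ?_ P hP
  · simpa using this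
  · intro W hW hi
    obtain ⟨i, hi⟩ := hi
    have h1 : Module.finrank ℂ W < 3 := by
      have := Submodule.finrank_lt hW
      rwa [Module.finrank_fin_fun] at this
    have h2 : 0 < Module.finrank ℂ W := by
      rw [Module.finrank_pos_iff]
      exact ⟨⟨⟨f i, hi⟩, 0, fun h => hf0 i (congrArg Subtype.val h)⟩⟩
    have hwt : wt f w W = ∑ i ∈ univ.filter (fun i => f i ∈ W), w i := by
      unfold wt
      rfl
    rw [hwt]
    rcases (by omega : Module.finrank ℂ W = 1 ∨ Module.finrank ℂ W = 2) with h | h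
    · have h3 : univ.filter (fun i => f i ∈ W) = {i} := by
        ext j
        simp only [mem_filter, mem_univ, true_and, mem_singleton]
        constructor
        · intro hj
          by_contra hne
          have h4 := finrank_span_pair (hf j i hne)
          have h5 : Submodule.span ℂ ({f j, f i} : Set (Fin 3 → ℂ)) ≤ W := by
            rw [Submodule.span_le]
            intro z hz
            simp only [Set.mem_insert_iff, Set.mem_singleton_iff] at hz
            rcases hz with rfl | rfl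
            · exact hj
            · exact hi
          have h6 := Submodule.finrank_mono h5
          omega
        · rintro rfl
          exact hi
      rw [h3, sum_singleton, h]
      simpa using hlt i
    · rw [h]
      have h3 := hclosed (univ.filter (fun i => f i ∈ W)) (closed_of_submodule f W) (by
        intro h4
        apply hW
        rw [← top_le_iff, ← hspan, Submodule.span_le]
        rintro _ ⟨j, rfl⟩
        have : j ∈ univ.filter (fun i => f i ∈ W) := by rw [h4]; exact mem_univ j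
        exact (mem_filter.mp this).2)
      simpa using h3

end Pool.Agent.H284_beta
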