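import Mathlib
import Pool.Agent.H284_beta.Vec

/-!
# From the Orlik–Solomon algebra to resonant labellings
-/

set_option autoImplicit false

open Finset

namespace Pool.Agent.H284_beta

/-- The functional on the exterior algebra attached to two linear functionals. -/
noncomputable def twoForm {R M : Type*} [CommRing R] [AddCommGroup M] [Module R M]
    (α β : M →ₗ[R] R) : ExteriorAlgebra R M →ₗ[R] R :=
  ExteriorAlgebra.liftAlternating (fun i => if h : i = 2 then
    ((Matrix.detRowAlternating (n := Fin 2) (R := R)).compLinearMap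
      (LinearMap.pi ![α, β])).domDomCongr (finCongr h.symm) else 0)

lemma twoForm_apply {R M : Type*} [CommRing R] [AddCommGroup M] [Module R M]
    (α β : M →ₗ[R] R) (u v : M) :
    twoForm α β (ExteriorAlgebra.ι R u * ExteriorAlgebra.ι R v) = α u * β v - β u * α v := by
  have h : ExteriorAlgebra.ι R u * ExteriorAlgebra.ι R v =
      ExteriorAlgebra.ιMulti R 2 ![u, v] := by
    simp [ExteriorAlgebra.ιMulti_apply]
  rw [h, twoForm, ExteriorAlgebra.liftAlternating_apply_ιMulti]
  have h2 : (Matrix.detRowAlternating (n := Fin 2) (R := R))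
      (fun i => (LinearMap.pi ![α, β]) (![u, v] i)) = α u * β v - β u * α v := by
    change Matrix.det (Matrix.of (fun i => (LinearMap.pi ![α, β]) (![u, v] i))) = _
    rw [Matrix.det_fin_two]
    simp
  simpa using h2

/-- The hypothesis of the frozen statement: `σ ∧ τ` lies in the degree two part of the
Orlik–Solomon ideal. -/
def OSrel {ℓ n : ℕ} (f : Fin n → (Fin ℓ → ℂ)) (p : ℕ) (τ : Fin n → ZMod p) : Prop :=
  ExteriorAlgebra.ι (ZMod p) ((fun _ => (1 : ZMod p)) : Fin n → ZMod p) *
            ExteriorAlgebra.ι (ZMod p) τ ∈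
          Submodule.span (ZMod p)
            {x | ∃ i j k : Fin n, i ≠ j ∧ i ≠ k ∧ j ≠ k ∧
              ¬ LinearIndependent ℂ ![f i, f j, f k] ∧
              x = ExteriorAlgebra.ι (ZMod p) (Pi.single j (1 : ZMod p) : Fin n → ZMod p) *
                    ExteriorAlgebra.ι (ZMod p) (Pi.single k (1 : ZMod p) : Fin n → ZMod p)
                  - ExteriorAlgebra.ι (ZMod p) (Pi.single i (1 : ZMod p) : Fin n → ZMod p) *
                    ExteriorAlgebra.ι (ZMod p) (Pi.single k (1 : ZMod p) : Fin n → ZMod p)
                  + ExteriorAlgebra.ι (ZMod p) (Pi.single i (1 : ZMod p) : Fin n → ZMod p) *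
                    ExteriorAlgebra.ι (ZMod p) (Pi.single j (1 : ZMod p) : Fin n → ZMod p)}

/-- Three dependent vectors, two of which are independent: the third one is in the span. -/
lemma mem_span_of_dependent {ℓ : ℕ} {u v x : Fin ℓ → ℂ} (h : LinearIndependent ℂ ![u, v])
    (h' : ¬ LinearIndependent ℂ ![u, v, x]) :
    x ∈ Submodule.span ℂ ({u, v} : Set (Fin ℓ → ℂ)) := by
  by_contra hcon
  apply h'
  have h1 : LinearIndependent ℂ (Fin.snoc ![u, v] x : Fin 3 → (Fin ℓ → ℂ)) := by
    refine linearIndependent_finSnoc.mpr ⟨h, ?_⟩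
    have h2 : Set.range ![u, v] = {u, v} := by
      rw [Matrix.range_cons, Matrix.range_cons, Matrix.range_empty]
      ext x
      simp only [Set.union_empty, Set.mem_union, Set.mem_singleton_iff, Set.mem_insert_iff]
    rw [h2]
    exact hcon
  have h3 : (Fin.snoc ![u, v] x : Fin 3 → (Fin ℓ → ℂ)) = ![u, v, x] := by
    funext i
    fin_cases i <;> rfl
  rwa [h3] at h1

lemma perm_dependent {ℓ : ℕ} (a b c : Fin ℓ → ℂ) (h : ¬ LinearIndependent ℂ ![a, b, c]) :
    ¬ LinearIndependent ℂ ![a, c, b] ∧ ¬ LinearIndependent ℂ ![b, c, a] := by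
  constructor
  · intro h1
    apply h
    have h2 := h1.comp ![0, 2, 1] (by decide)
    have h3 : ![a, c, b] ∘ ![(0 : Fin 3), 2, 1] = ![a, b, c] := by
      funext i
      fin_cases i <;> rfl
    rwa [h3] at h2
  · intro h1
    apply h
    have h2 := h1.comp ![2, 0, 1] (by decide)
    have h3 : ![b, c, a] ∘ ![(2 : Fin 3), 0, 1] = ![a, b, c] := by
      funext i
      fin_cases i <;> rfl
    rwa [h3] at h2

/-- The Orlik–Solomon relation implies that the labelling is resonant. -/
theorem resonant_of_OSrel {ℓ n : ℕ} (f : Fin n → (Fin ℓ → ℂ))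
    (hf : ∀ i j : Fin n, i ≠ j → LinearIndependent ℂ ![f i, f j]) (p : ℕ)
    (τ : Fin n → ZMod p) (h : OSrel f p τ) : Resonant (vecLine f) τ := by
  classical
  intro i j hij
  set X := vecLine f i j with hX
  have hL := isLinSp_vecLine f hf
  set α : (Fin n → ZMod p) →ₗ[ZMod p] ZMod p := ∑ k ∈ X, LinearMap.proj k with hα
  set β : (Fin n → ZMod p) →ₗ[ZMod p] ZMod p := LinearMap.proj i with hβ
  have hiX : i ∈ X := hL.left_mem i j hij
  have hαs : ∀ a : Fin n, α (Pi.single a 1) = if a ∈ X then 1 else 0 := by
    intro a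
    rw [hα, LinearMap.sum_apply]
    simp only [LinearMap.proj_apply, Pi.single_apply]
    rw [sum_ite_eq']
  have hβs : ∀ a : Fin n, β (Pi.single a 1) = if a = i then 1 else 0 := by
    intro a
    rw [hβ, LinearMap.proj_apply, Pi.single_apply]
    simp only [eq_comm]
  -- the functional vanishes on the ideal
  have hker : ∀ x ∈ Submodule.span (ZMod p)
            {x | ∃ i j k : Fin n, i ≠ j ∧ i ≠ k ∧ j ≠ k ∧
              ¬ LinearIndependent ℂ ![f i, f j, f k] ∧
              x = ExteriorAlgebra.ι (ZMod p) (Pi.single j (1 : ZMod p) : Fin n → ZMod p) *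
                    ExteriorAlgebra.ι (ZMod p) (Pi.single k (1 : ZMod p) : Fin n → ZMod p)
                  - ExteriorAlgebra.ι (ZMod p) (Pi.single i (1 : ZMod p) : Fin n → ZMod p) *
                    ExteriorAlgebra.ι (ZMod p) (Pi.single k (1 : ZMod p) : Fin n → ZMod p)
                  + ExteriorAlgebra.ι (ZMod p) (Pi.single i (1 : ZMod p) : Fin n → ZMod p) *
                    ExteriorAlgebra.ι (ZMod p) (Pi.single j (1 : ZMod p) : Fin n → ZMod p)},
      twoForm α β x = 0 := by
    intro x hx
    induction hx using Submodule.span_induction with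
    | zero => simp
    | add x y _ _ hx hy => rw [map_add, hx, hy, add_zero]
    | smul c x _ hx => rw [map_smul, hx, smul_zero]
    | mem x hx =>
      obtain ⟨a, b, c, hab, hac, hbc, hdep, rfl⟩ := hx
      have hd1 : c ∈ vecLine f a b :=
        mem_vecLine.mpr (mem_span_of_dependent (hf a b hab) hdep)
      have hd2 : b ∈ vecLine f a c :=
        mem_vecLine.mpr (mem_span_of_dependent (hf a c hac) (perm_dependent _ _ _ hdep).1)
      have hd3 : a ∈ vecLine f b c :=
        mem_vecLine.mpr (mem_span_of_dependent (hf b c hbc) (perm_dependent _ _ _ hdep).2)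
      have h1 : a ∈ X → b ∈ X → c ∈ X := fun ha hb => by
        have := hL.eq_of_mem i j a b hij hab ha hb
        rw [hX, ← this]; exact hd1
      have h2 : a ∈ X → c ∈ X → b ∈ X := fun ha hc => by
        have := hL.eq_of_mem i j a c hij hac ha hc
        rw [hX, ← this]; exact hd2
      have h3 : b ∈ X → c ∈ X → a ∈ X := fun hb hc => by
        have := hL.eq_of_mem i j b c hij hbc hb hc
        rw [hX, ← this]; exact hd3
      rw [map_add, map_sub, twoForm_apply, twoForm_apply, twoForm_apply]
      simp only [hαs, hβs]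
      have ha' : a = i → a ∈ X := fun h => by rw [h]; exact hiX
      have hb' : b = i → b ∈ X := fun h => by rw [h]; exact hiX
      have hc' : c = i → c ∈ X := fun h => by rw [h]; exact hiX
      by_cases ha : a ∈ X
      · by_cases hb : b ∈ X
        · have hc := h1 ha hb
          simp only [ha, hb, hc, if_true]
          ring
        · have hc : c ∉ X := fun hc => hb (h2 ha hc)
          have hbi : b ≠ i := fun h => hb (hb' h)
          have hci : c ≠ i := fun h => hc (hc' h)
          simp [ha, hb, hc, hbi, hci]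
      · have hai : a ≠ i := fun h => ha (ha' h)
        by_cases hb : b ∈ X
        · have hc : c ∉ X := fun hc => ha (h3 hb hc)
          have hci : c ≠ i := fun h => hc (hc' h)
          simp [ha, hb, hc, hai, hci]
        · have hbi : b ≠ i := fun h => hb (hb' h)
          simp [ha, hb, hai, hbi]
  have h4 := hker _ h
  rw [twoForm_apply] at h4
  have h5 : α (fun _ => (1 : ZMod p)) = (X.card : ZMod p) := by
    rw [hα, LinearMap.sum_apply]
    simp
  have h6 : α τ = ∑ k ∈ X, τ k := by
    rw [hα, LinearMap.sum_apply]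
    simp
  have h7 : β τ = τ i := rfl
  have h8 : β (fun _ => (1 : ZMod p)) = 1 := rfl
  rw [h5, h6, h7, h8, one_mul] at h4
  exact sub_eq_zero.mp h4

end Pool.Agent.H284_beta
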