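import Mathlib
import Pool.Agent.H284_beta.OS

/-!
# Localisation at a flat
-/

set_option autoImplicit false

open Finset

namespace Pool.Agent.H284_beta

lemma mem_span_pair_map {ℓ r : ℕ} (g : (Fin r → ℂ) →ₗ[ℂ] (Fin ℓ → ℂ))
    (hg : Function.Injective g) (x u v : Fin r → ℂ) :
    g x ∈ Submodule.span ℂ ({g u, g v} : Set (Fin ℓ → ℂ)) ↔
      x ∈ Submodule.span ℂ ({u, v} : Set (Fin r → ℂ)) := by
  have h : Submodule.span ℂ ({g u, g v} : Set (Fin ℓ → ℂ)) =
      (Submodule.span ℂ ({u, v} : Set (Fin r → ℂ))).map g := by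
    rw [Submodule.map_span, Set.image_pair]
  rw [h]
  constructor
  · rintro ⟨y, hy, hyx⟩
    rwa [← hg hyx]
  · intro hx
    exact Submodule.mem_map_of_mem hx

lemma linearIndependent_pair_map {ℓ r : ℕ} (g : (Fin r → ℂ) →ₗ[ℂ] (Fin ℓ → ℂ)) (u v : Fin r → ℂ)
    (h : LinearIndependent ℂ ![g u, g v]) : LinearIndependent ℂ ![u, v] := by
  apply LinearIndependent.of_comp g
  have h2 : g ∘ ![u, v] = ![g u, g v] := by
    funext i
    fin_cases i <;> rfl
  rwa [h2]

/-- Localisation of a resonant labelling at a subspace of dimension `r`. -/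
theorem localize {ℓ n r : ℕ} (f : Fin n → (Fin ℓ → ℂ))
    (hf : ∀ i j : Fin n, i ≠ j → LinearIndependent ℂ ![f i, f j]) {p : ℕ}
    (τ : Fin n → ZMod p) (hτ : Resonant (vecLine f) τ) (b : Fin r → Fin n)
    (hb : LinearIndependent ℂ (f ∘ b)) :
    ∃ (S : Finset (Fin n)) (f' : S → (Fin r → ℂ)),
      (∀ k, b k ∈ S) ∧
      (∀ i j : S, i ≠ j → LinearIndependent ℂ ![f' i, f' j]) ∧
      Submodule.span ℂ (Set.range f') = ⊤ ∧
      Resonant (vecLine f') (fun i : S => τ i) := by
  classical
  set W := Submodule.span ℂ (Set.range (f ∘ b)) with hW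
  have hfr : Module.finrank ℂ W = Module.finrank ℂ (Fin r → ℂ) := by
    rw [hW, finrank_span_eq_card hb, Module.finrank_fin_fun, Fintype.card_fin]
  let e : W ≃ₗ[ℂ] (Fin r → ℂ) := LinearEquiv.ofFinrankEq _ _ hfr
  set S : Finset (Fin n) := univ.filter (fun i => f i ∈ W) with hS
  have hSmem : ∀ i : S, f i ∈ W := fun i => (mem_filter.mp i.2).2
  let f' : S → (Fin r → ℂ) := fun i => e ⟨f i, hSmem i⟩
  let g : (Fin r → ℂ) →ₗ[ℂ] (Fin ℓ → ℂ) := W.subtype ∘ₗ e.symm.toLinearMap
  have hginj : Function.Injective g := by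
    intro x y hxy
    have h1 : e.symm x = e.symm y := Subtype.ext hxy
    exact e.symm.injective h1
  have hgf : ∀ i : S, g (f' i) = f i := by
    intro i
    simp [g, f']
  have hbS : ∀ k, b k ∈ S := fun k =>
    mem_filter.mpr ⟨mem_univ _, Submodule.subset_span ⟨k, rfl⟩⟩
  have hmap : ∀ i j : S, vecLine f i j = (vecLine f' i j).map (Function.Embedding.subtype _) := by
    intro i j
    ext k
    simp only [mem_map, Function.Embedding.subtype_apply]
    constructor
    · intro hk
      have h1 := mem_vecLine.mp hk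
      have h2 : Submodule.span ℂ ({f i, f j} : Set (Fin ℓ → ℂ)) ≤ W := by
        rw [Submodule.span_le]
        intro z hz
        simp only [Set.mem_insert_iff, Set.mem_singleton_iff] at hz
        rcases hz with rfl | rfl
        · exact hSmem i
        · exact hSmem j
      have hkS : k ∈ S := mem_filter.mpr ⟨mem_univ _, h2 h1⟩
      refine ⟨⟨k, hkS⟩, ?_, rfl⟩
      rw [mem_vecLine, ← mem_span_pair_map g hginj, hgf, hgf, hgf]
      exact h1
    · rintro ⟨k', hk', rfl⟩
      rw [mem_vecLine, ← mem_span_pair_map g hginj, hgf, hgf, hgf] at hk'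
      exact mem_vecLine.mpr hk'
  refine ⟨S, f', hbS, ?_, ?_, ?_⟩
  · intro i j hij
    apply linearIndependent_pair_map g
    rw [hgf, hgf]
    exact hf i j (fun h => hij (Subtype.ext h))
  · -- the span
    have h1 : LinearIndependent ℂ (fun k => f' ⟨b k, hbS k⟩) := by
      apply LinearIndependent.of_comp g
      have h2 : (g ∘ fun k => f' ⟨b k, hbS k⟩) = f ∘ b := by
        funext k
        simp only [Function.comp]
        rw [hgf]
      rwa [h2]
    have h2 : Submodule.span ℂ (Set.range (fun k => f' ⟨b k, hbS k⟩)) = ⊤ := by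
      apply h1.span_eq_top_of_card_eq_finrank'
      simp
    rw [← top_le_iff, ← h2]
    apply Submodule.span_mono
    rintro _ ⟨k, rfl⟩
    exact ⟨_, rfl⟩
  · intro i j hij
    have h1 := hτ i j (fun h => hij (Subtype.ext h))
    rw [hmap i j, card_map, sum_map] at h1
    exact h1

/-- An arrangement of rank at least `r` contains any two independent vectors in a set of
`r` independent ones. -/
lemma exists_basis_through {ℓ n r : ℕ} (f : Fin n → (Fin ℓ → ℂ))
    (hf : ∀ i j : Fin n, i ≠ j → LinearIndependent ℂ ![f i, f j])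
    (hr : r ≤ Module.finrank ℂ (Submodule.span ℂ (Set.range f))) (hr2 : 2 ≤ r)
    (i j : Fin n) (hij : i ≠ j) :
    ∃ b : Fin r → Fin n, LinearIndependent ℂ (f ∘ b) ∧ i ∈ Set.range b ∧ j ∈ Set.range b := by
  induction r, hr2 using Nat.le_induction with
  | base =>
    refine ⟨![i, j], ?_, ⟨0, rfl⟩, ⟨1, rfl⟩⟩
    have h2 : f ∘ ![i, j] = ![f i, f j] := by
      funext i
      fin_cases i <;> rfl
    rw [h2]
    exact hf i j hij
  | succ r hr2 ih =>
    obtain ⟨b, hb, hi, hj⟩ := ih (by omega)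
    obtain ⟨k, hk⟩ : ∃ k, f k ∉ Submodule.span ℂ (Set.range (f ∘ b)) := by
      by_contra hcon
      push Not at hcon
      have h1 : Submodule.span ℂ (Set.range f) ≤ Submodule.span ℂ (Set.range (f ∘ b)) := by
        rw [Submodule.span_le]
        rintro _ ⟨k, rfl⟩
        exact hcon k
      have h2 := Submodule.finrank_mono h1
      rw [finrank_span_eq_card hb, Fintype.card_fin] at h2
      omega
    refine ⟨Fin.snoc b k, ?_, ?_, ?_⟩
    · have hcomp : f ∘ (Fin.snoc b k : Fin (r + 1) → Fin n) = Fin.snoc (f ∘ b) (f k) :=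
        Fin.comp_snoc f b k
      rw [hcomp]
      exact linearIndependent_finSnoc.mpr ⟨hb, hk⟩
    · obtain ⟨m, hm⟩ := hi
      exact ⟨Fin.castSucc m, by rw [Fin.snoc_castSucc (α := fun _ => Fin n)]; exact hm⟩
    · obtain ⟨m, hm⟩ := hj
      exact ⟨Fin.castSucc m, by rw [Fin.snoc_castSucc (α := fun _ => Fin n)]; exact hm⟩

end Pool.Agent.H284_beta
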