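import Mathlib
import Pool.Agent.H284_beta.Cases

/-!
# The combinatorial theorem for `p ≥ 7` in rank three
-/

set_option autoImplicit false

open Finset

namespace Pool.Agent.H284_beta

variable {ι : Type*} [Fintype ι] [DecidableEq ι]

/-- In a linear space satisfying the weighted inequality of rank three, every resonant labelling
modulo a prime `p ≥ 7` is constant. -/
theorem resonant_const {L : ι → ι → Finset ι} (hL : IsLinSp L) {p : ℕ} [Fact p.Prime]
    (hp : 7 ≤ p) {τ : ι → ZMod p} (hτ : Resonant L τ) (hI : Ineq3 L) : ∀ i j, τ i = τ j := by
  classical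
  by_contra hcon
  push Not at hcon
  have hnc : ∃ i j, τ i ≠ τ j := hcon
  set m : Finset (ZMod p) → ℕ := fun S => (univ.filter (fun i => τ i ∈ S)).card with hm
  have hmuniv : m univ = Fintype.card ι := by simp [hm, card_univ]
  obtain ⟨S, hS, hSmax⟩ := ((univ : Finset (Finset (ZMod p))).filter
    (fun S => 13 * m S ≤ 9 * Fintype.card ι)).exists_max_image m ⟨∅, by simp [hm]⟩
  simp only [mem_filter, mem_univ, true_and] at hS hSmax
  by_cases h4 : 4 * Fintype.card ι ≤ 13 * m S
  · refine caseA hL hp hτ hnc hI (univ.filter (fun i => τ i ∈ S)) ?_ h4 hS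
    intro i hi j hj hij
    simp only [mem_filter, mem_univ, true_and] at hi hj
    rw [hij] at hi
    exact hj hi
  · push Not at h4
    obtain ⟨j, hj⟩ : ∃ j, τ j ∉ S := by
      by_contra hcon
      push Not at hcon
      have : m S = Fintype.card ι := by
        simp only [hm]
        rw [filter_true_of_mem (fun i _ => hcon i), card_univ]
      omega
    have hins : m (insert (τ j) S) = m S + m {τ j} := by
      simp only [hm]
      rw [← card_union_of_disjoint]
      · congr 1
        ext i
        simp only [mem_filter, mem_univ, true_and, mem_insert, mem_union, mem_singleton]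
        tauto
      · rw [Finset.disjoint_left]
        intro i hi hi'
        simp only [mem_filter, mem_univ, true_and, mem_singleton] at hi hi'
        rw [hi'] at hi
        exact hj hi
    have hpos : 1 ≤ m {τ j} := card_pos.mpr ⟨j, by simp⟩
    have h5 : ¬ 13 * m (insert (τ j) S) ≤ 9 * Fintype.card ι := by
      intro h
      have := hSmax _ h
      omega
    rw [hins] at h5
    by_cases h6 : 13 * m {τ j} ≤ 9 * Fintype.card ι
    · have := hSmax _ h6
      omega
    · refine caseB hL hp hτ hnc hI (τ j) ?_
      push Not at h6
      simp only [hm, mem_singleton] at h6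
      exact h6

end Pool.Agent.H284_beta
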